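import Pool.Agent.Y925.SY.Planar

/-!
Compact null sets in the plane (after `Pool.Agent.Y925.SY.Planar`): the area form is the exterior
derivative of a small one-form, with bounds everywhere.
-/

set_option autoImplicit false

open Set Filter Topology MeasureTheory Metric
open scoped Manifold ContDiff Convolution

noncomputable section

namespace Pool.Agent.N312.BU

open Pool.Agent.Y925.SY

theorem planar2 : ∀ K : Set (ℝ × ℝ), IsCompact K → volume K = 0 → ∀ ε : ℝ, 0 < ε →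
    ∃ (P : ℝ → ℝ) (Q : ℝ × ℝ → ℝ), ContDiff ℝ ∞ P ∧ ContDiff ℝ ∞ Q ∧ (∀ x, |P x| ≤ ε) ∧
      (∀ z, |Q z| ≤ ε) ∧
      (∀ z : ℝ × ℝ, 0 ≤ deriv P z.1 + fderiv ℝ Q z ((0, 1) : ℝ × ℝ)) ∧
      (∀ z : ℝ × ℝ, deriv P z.1 + fderiv ℝ Q z ((0, 1) : ℝ × ℝ) ≤ 1) ∧
      ∀ z ∈ K, deriv P z.1 + fderiv ℝ Q z ((0, 1) : ℝ × ℝ) = 1 := by
  intro K hK hK0 ε hε
  obtain ⟨u, hu, hu0, hu1, huK, ⟨R, hRpos, hR⟩, hui⟩ := bump (volume : Measure (ℝ × ℝ)) K hK
    (ε ^ 2 / 2) (by rw [hK0]; exact ENNReal.ofReal_pos.2 (by positivity))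
  obtain ⟨Q, hQ⟩ : ∃ Q : ℝ × ℝ → ℝ, ∀ q, Q q = ∫ t in Iic q.2, u (q.1, t) := ⟨_, fun _ => rfl⟩
  have hQs : ContDiff ℝ ∞ Q := by
    have h1 : Q = fun q : ℝ × ℝ => ∫ t in Iic q.2, u (q.1, t) := funext hQ
    rw [h1]
    exact Qsmooth u hu R hR
  obtain ⟨g, hg⟩ : ∃ g : ℝ → ℝ, ∀ x, g x = ∫ t, u (x, t) := ⟨_, fun _ => rfl⟩
  have hgQ : ∀ x, g x = Q (x, R) := by
    intro x
    rw [hg, hQ]
    symm
    apply setIntegral_eq_integral_of_forall_compl_eq_zero
    intro t ht
    apply hR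
    have h1 : R < t := not_le.1 ht
    exact (h1.le.trans (le_abs_self t)).trans (le_max_right _ _)
  have hgc : Continuous g := by
    have h1 : g = fun x => Q (x, R) := funext hgQ
    rw [h1]
    exact hQs.continuous.comp (by fun_prop)
  have hg0 : ∀ x : ℝ, R ≤ |x| → g x = 0 := by
    intro x hx
    rw [hg]
    have h1 : (fun t => u (x, t)) = fun _ => 0 := by
      ext t
      exact hR _ (hx.trans (le_max_left _ _))
    rw [h1, integral_zero]
  have huint : Integrable u := hu.continuous.integrable_of_hasCompactSupport (compSupp u R hR)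
  have hgint : Integrable g := by
    have h1 : g = fun x => ∫ t, u (x, t) := funext hg
    rw [h1]
    rw [Measure.volume_eq_prod] at huint
    exact huint.integral_prod_left
  have hgi : ∫ x, g x ≤ ε ^ 2 / 2 := by
    refine le_trans (le_of_eq ?_) hui
    rw [Measure.volume_eq_prod, integral_prod u (by rwa [Measure.volume_eq_prod] at huint)]
    congr 1
    ext x
    exact hg x
  have hgn : ∀ x, 0 ≤ g x := fun x => by
    rw [hg]
    exact integral_nonneg fun t => hu0 _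
  -- the bad set
  obtain ⟨B, hB⟩ : ∃ B : Set ℝ, B = {x | ε ≤ g x} := ⟨_, rfl⟩
  have hBc : IsCompact B := by
    rw [hB]
    refine IsCompact.of_isClosed_subset (isCompact_Icc (a := -R) (b := R))
      (isClosed_le continuous_const hgc) ?_
    intro x hx
    have h1 : ε ≤ g x := hx
    have h2 : |x| < R := by
      by_contra h3
      rw [hg0 x (not_lt.1 h3)] at h1
      linarith
    rw [abs_lt] at h2
    exact ⟨h2.1.le, h2.2.le⟩
  have hBv : volume B < ENNReal.ofReal ε := by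
    have h1 := mul_meas_ge_le_integral_of_nonneg (μ := volume) (f := g)
      (Eventually.of_forall hgn) hgint ε
    rw [← hB] at h1
    have h2 : volume.real B ≤ ε / 2 := by
      have h3 : ε * volume.real B ≤ ε * (ε / 2) := by
        refine h1.trans (hgi.trans (le_of_eq ?_))
        ring
      exact le_of_mul_le_mul_left h3 hε
    have h4 : volume B ≠ ⊤ := hBc.measure_lt_top.ne
    rw [← ENNReal.ofReal_toReal h4]
    rw [ENNReal.ofReal_lt_ofReal_iff hε]
    exact lt_of_le_of_lt h2 (by linarith)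
  obtain ⟨w, hw, hw0, hw1, hwB, ⟨R', -, hR'⟩, hwi⟩ := bump (volume : Measure ℝ) B hBc ε hBv
  obtain ⟨P, hP, hPε, hPw⟩ := prim w hw hw0 R' hR' ε hwi
  have hQs2 : ContDiff ℝ ∞ (fun q : ℝ × ℝ => (1 - w q.1) * Q q) :=
    (contDiff_const.sub (hw.comp contDiff_fst)).mul hQs
  have hder : ∀ z : ℝ × ℝ, deriv P z.1 +
      fderiv ℝ (fun q : ℝ × ℝ => (1 - w q.1) * Q q) z ((0, 1) : ℝ × ℝ) =
      w z.1 + (1 - w z.1) * u (z.1, z.2) := by
    intro z
    have h1 : HasDerivAt (fun y => (1 - w z.1) * Q (z.1, y)) ((1 - w z.1) * u (z.1, z.2)) z.2 := by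
      have h2 : (fun y => (1 - w z.1) * Q (z.1, y)) =
          fun y => (1 - w z.1) * ∫ t in Iic y, u (z.1, t) := by
        ext y
        rw [hQ]
      rw [h2]
      exact (Qderiv u hu.continuous R hR z.1 z.2).const_mul _
    have h3 : HasFDerivAt (fun q : ℝ × ℝ => (1 - w q.1) * Q q)
        (fderiv ℝ (fun q : ℝ × ℝ => (1 - w q.1) * Q q) z) z :=
      (hQs2.differentiable (by simp) z).hasFDerivAt
    have h4 : HasDerivAt (fun y : ℝ => ((z.1, y) : ℝ × ℝ)) ((0, 1) : ℝ × ℝ) z.2 :=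
      (hasDerivAt_const z.2 z.1).prodMk (hasDerivAt_id z.2)
    have h5 : HasDerivAt (fun y => (1 - w z.1) * Q (z.1, y))
        (fderiv ℝ (fun q : ℝ × ℝ => (1 - w q.1) * Q q) z ((0, 1) : ℝ × ℝ)) z.2 :=
      HasFDerivAt.comp_hasDerivAt z.2 (f := fun y : ℝ => ((z.1, y) : ℝ × ℝ)) h3 h4
    rw [h5.unique h1, hPw]
  refine ⟨P, fun q => (1 - w q.1) * Q q, hP, hQs2, hPε, ?_, ?_, ?_, ?_⟩
  · intro q
    have h1 : 0 ≤ Q q := by
      rw [hQ]
      exact integral_nonneg fun t => hu0 _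
    have h2 : Q q ≤ g q.1 := by
      rw [hQ, hg]
      exact setIntegral_le_integral (sec_int u hu.continuous R hR q.1)
        (Eventually.of_forall fun t => hu0 _)
    have h3 : 0 ≤ 1 - w q.1 := by linarith [hw1 q.1]
    rw [abs_of_nonneg (mul_nonneg h3 h1)]
    by_cases hq : q.1 ∈ B
    · rw [hwB _ hq, sub_self, zero_mul]
      exact hε.le
    · have h4 : g q.1 < ε := by
        rw [hB] at hq
        exact not_le.1 hq
      have h5 : 1 - w q.1 ≤ 1 := by linarith [hw0 q.1]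
      calc (1 - w q.1) * Q q ≤ 1 * Q q := mul_le_mul_of_nonneg_right h5 h1
        _ ≤ ε := by linarith
  · intro z
    rw [hder]
    have a1 := hw0 z.1
    have a2 := hw1 z.1
    have a3 := hu0 (z.1, z.2)
    have a4 : 0 ≤ (1 - w z.1) * u (z.1, z.2) := mul_nonneg (by linarith) a3
    linarith
  · intro z
    rw [hder]
    have a1 := hw0 z.1
    have a2 := hw1 z.1
    have a3 := hu1 (z.1, z.2)
    have a4 : (1 - w z.1) * u (z.1, z.2) ≤ (1 - w z.1) * 1 :=
      mul_le_mul_of_nonneg_left a3 (by linarith)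
    linarith
  · intro z hz
    rw [hder]
    have h7 : u (z.1, z.2) = 1 := huK z hz
    rw [h7]
    ring

end Pool.Agent.N312.BU
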