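import Pool.Agent.N312.BU.Cpt
import Pool.Agent.N312.BU.Planar2

/-!
A finite measure on the unit tangent vectors which annihilates the exact forms does not charge the
null sets of pairs of smooth functions.
-/

set_option autoImplicit false

open Set Filter Topology MeasureTheory
open scoped Manifold ContDiff

noncomputable section

namespace Pool.Agent.N312.BU

open Pool.Agent.Y501.SY

variable {d : ℕ} {X : Type} [TopologicalSpace X] [ChartedSpace (E d) X]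

theorem dfdg_prod {a b h : X → ℝ} (ha : SmoothFun (d := d) a) (hb : SmoothFun (d := d) b)
    (hh : SmoothFun (d := d) h) {P : ℝ → ℝ} {Q : ℝ × ℝ → ℝ} (hP : ContDiff ℝ ∞ P)
    (hQ : ContDiff ℝ ∞ Q) (x : X) (v w : TangentSpace (𝓡 d) x) :
    (dfdg (d := d) (fun x => h x * P (a x)) b +
      dfdg (fun x => (-1) * (h x * Q (a x, b x))) a : Form d X 2) x ![v, w] =
      h x * (deriv P (a x) + fderiv ℝ Q (a x, b x) ((0, 1) : ℝ × ℝ)) *
        dfdg (d := d) a b x ![v, w] + P (a x) * dfdg (d := d) h b x ![v, w] -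
        Q (a x, b x) * dfdg (d := d) h a x ![v, w] := by
  have s1 : SmoothFun (d := d) (fun x => P (a x)) := SmoothFun.comp1 hP ha
  have s2 : SmoothFun (d := d) (fun x => Q (a x, b x)) := SmoothFun.comp2 hQ ha hb
  have s2' : SmoothFun (d := d) (fun x => h x * Q (a x, b x)) := hh.mul s2
  have h5 : (dfdg (d := d) (fun x => h x * P (a x)) b +
        dfdg (fun x => (-1) * (h x * Q (a x, b x))) a : Form d X 2) x ![v, w] =
        dfdg (d := d) (fun x => h x * P (a x)) b x ![v, w] +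
        dfdg (d := d) (fun x => (-1) * (h x * Q (a x, b x))) a x ![v, w] := rfl
  have h6 : ∀ w : TangentSpace (𝓡 d) x, dd (d := d) (fun _ : X => (-1 : ℝ)) x w = 0 := by
    intro w
    unfold dd
    rw [mfderiv_const]; rfl
  rw [h5, dfdg_apply, dfdg_apply, dfdg_apply, dfdg_apply, dfdg_apply,
    dd_mul hh s1, dd_mul hh s1, dd_comp1 hP ha, dd_comp1 hP ha,
    dd_mul (SmoothFun.const (-1)) s2', dd_mul (SmoothFun.const (-1)) s2', dd_mul hh s2,
    dd_mul hh s2, dd_comp2 hQ ha hb, dd_comp2 hQ ha hb, h6, h6]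
  ring

theorem integrable_of_cont {S : Type} [TopologicalSpace S] [CompactSpace S]
    [MeasurableSpace S] [BorelSpace S] {μ : Measure S} [IsFiniteMeasure μ] {f : S → ℝ}
    (hf : Continuous f) : Integrable f μ :=
  hf.integrable_of_hasCompactSupport (HasCompactSupport.of_compactSpace f)

variable [IsManifold (𝓡 d) ∞ X] [CompactSpace X] [T2Space X]

theorem smooth_dfdg {f g : X → ℝ} (hf : SmoothFun (d := d) f) (hg : SmoothFun (d := d) g) :
    IsSmooth (dfdg (d := d) f g) :=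
  ((Pair.gen f g hf hg).props Pool.Agent.Y484.SY.t_GEN).2.1

theorem null_piece (𝒜 : Atl d X) {J : End d X} (hJ : IsAlmostComplex J) (μ : Measure (SS 𝒜))
    [IsFiniteMeasure μ]
    (hex : ∀ (α : Form d X 1) (η : Form d X 2), Pair α η → ∫ s, qf 𝒜 η J s ∂μ = 0)
    {a b : X → ℝ} (ha : SmoothFun (d := d) a) (hb : SmoothFun (d := d) b) {K : Set X}
    (hK : IsCompact K) (hnull : volume ((fun x => (a x, b x)) '' K) = 0) :
    ∫ s in pr 𝒜 ⁻¹' K, qf 𝒜 (dfdg a b) J s ∂μ = 0 := by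
  classical
  obtain ⟨f, hf, hfr, -, hf1⟩ := exists_contMDiff_support_eq_eq_one_iff (𝓡 d) (n := (⊤ : ℕ∞))
    (s := univ) (t := K) isOpen_univ hK.isClosed (subset_univ _)
  have hf0 : ∀ x, 0 ≤ f x := fun x => (hfr (mem_range_self x)).1
  have hfle : ∀ x, f x ≤ 1 := fun x => (hfr (mem_range_self x)).2
  have hfs : SmoothFun (d := d) f := hf
  have hKp : MeasurableSet (pr 𝒜 ⁻¹' K) :=
    (hK.isClosed.preimage (continuous_pr 𝒜)).measurableSet
  set κ : SS 𝒜 → ℝ := qf 𝒜 (dfdg a b) J with hκ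
  have hκc : Continuous κ := continuous_qf 𝒜 (smooth_dfdg ha hb) hJ
  have hpc := continuous_pr 𝒜
  -- the estimate for one `n`
  have key : ∀ n : ℕ, |∫ s in pr 𝒜 ⁻¹' K, κ s ∂μ| ≤
      ∫ s, (pr 𝒜 ⁻¹' K)ᶜ.indicator (fun s => f (pr 𝒜 s) ^ n * |κ s|) s ∂μ := by
    intro n
    have hh : SmoothFun (d := d) (fun x => f x ^ n) :=
      SmoothFun.comp1 (P := fun t => t ^ n) (contDiff_id.pow n) hfs
    have hhc : Continuous fun s : SS 𝒜 => f (pr 𝒜 s) ^ n := (hh.continuous).comp hpc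
    set κ1 : SS 𝒜 → ℝ := qf 𝒜 (dfdg (fun x => f x ^ n) b) J with hκ1
    set κ2 : SS 𝒜 → ℝ := qf 𝒜 (dfdg (fun x => f x ^ n) a) J with hκ2
    have hκ1c : Continuous κ1 := continuous_qf 𝒜 (smooth_dfdg hh hb) hJ
    have hκ2c : Continuous κ2 := continuous_qf 𝒜 (smooth_dfdg hh ha) hJ
    have hcpt : IsCompact ((fun x => (a x, b x)) '' K) :=
      hK.image (ha.continuous.prodMk hb.continuous)
    refine le_of_forall_pos_le_add fun δ hδ => ?_
    set M : ℝ := ∫ s, |κ1 s| ∂μ + ∫ s, |κ2 s| ∂μ with hM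
    have hM0 : 0 ≤ M := add_nonneg (integral_nonneg fun s => abs_nonneg _)
      (integral_nonneg fun s => abs_nonneg _)
    obtain ⟨P, Q, hP, hQ, hPε, hQε, hψ0, hψ1, hPQ⟩ := planar2 _ hcpt hnull (δ / (M + 1))
      (by positivity)
    set ψ : SS 𝒜 → ℝ := fun s => deriv P (a (pr 𝒜 s)) +
      fderiv ℝ Q (a (pr 𝒜 s), b (pr 𝒜 s)) ((0, 1) : ℝ × ℝ) with hψ
    have hψc : Continuous ψ := by
      have h1 : Continuous (deriv P) := hP.continuous_deriv (by simp)
      have h2 : Continuous (fderiv ℝ Q) := hQ.continuous_fderiv (by simp)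
      exact (h1.comp (ha.continuous.comp hpc)).add
        ((h2.comp ((ha.continuous.comp hpc).prodMk (hb.continuous.comp hpc))).clm_apply
          continuous_const)
    have hpair : Pair (fdg (d := d) (fun x => f x ^ n * P (a x)) b +
        fdg (fun x => (-1) * (f x ^ n * Q (a x, b x))) a)
        (dfdg (d := d) (fun x => f x ^ n * P (a x)) b +
        dfdg (fun x => (-1) * (f x ^ n * Q (a x, b x))) a) :=
      Pair.add _ _ _ _ (Pair.gen _ _ (hh.mul (SmoothFun.comp1 hP ha)) hb)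
        (Pair.gen _ _ ((SmoothFun.const (-1)).mul (hh.mul (SmoothFun.comp2 hQ ha hb))) ha)
    have hqe : ∀ s : SS 𝒜, qf 𝒜 (dfdg (d := d) (fun x => f x ^ n * P (a x)) b +
        dfdg (fun x => (-1) * (f x ^ n * Q (a x, b x))) a) J s =
        f (pr 𝒜 s) ^ n * ψ s * κ s + P (a (pr 𝒜 s)) * κ1 s -
          Q (a (pr 𝒜 s), b (pr 𝒜 s)) * κ2 s := by
      intro s
      rw [qf_eq, dfdg_prod ha hb hh hP hQ]
      simp only [hκ, hκ1, hκ2, qf_eq, hψ]
    have c1 : Continuous fun s : SS 𝒜 => f (pr 𝒜 s) ^ n * ψ s * κ s := (hhc.mul hψc).mul hκc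
    have c2 : Continuous fun s : SS 𝒜 => P (a (pr 𝒜 s)) * κ1 s :=
      (hP.continuous.comp (ha.continuous.comp hpc)).mul hκ1c
    have c3 : Continuous fun s : SS 𝒜 => Q (a (pr 𝒜 s), b (pr 𝒜 s)) * κ2 s :=
      (hQ.continuous.comp ((ha.continuous.comp hpc).prodMk (hb.continuous.comp hpc))).mul hκ2c
    have h0 := hex _ _ hpair
    rw [integral_congr_ae (Eventually.of_forall hqe)] at h0
    have e1 : ∫ s, (f (pr 𝒜 s) ^ n * ψ s * κ s + P (a (pr 𝒜 s)) * κ1 s -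
        Q (a (pr 𝒜 s), b (pr 𝒜 s)) * κ2 s) ∂μ =
        ∫ s, f (pr 𝒜 s) ^ n * ψ s * κ s ∂μ + ∫ s, P (a (pr 𝒜 s)) * κ1 s ∂μ -
          ∫ s, Q (a (pr 𝒜 s), b (pr 𝒜 s)) * κ2 s ∂μ := by
      rw [integral_sub, integral_add]
      · exact integrable_of_cont c1
      · exact integrable_of_cont c2
      · exact integrable_of_cont (c1.add c2)
      · exact integrable_of_cont c3
    rw [e1] at h0
    have b1 : |∫ s, P (a (pr 𝒜 s)) * κ1 s ∂μ| ≤ δ / (M + 1) * ∫ s, |κ1 s| ∂μ := by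
      rw [← integral_const_mul]
      refine (abs_integral_le_integral_abs).trans ?_
      refine integral_mono (integrable_of_cont c2.abs)
        (integrable_of_cont (continuous_const.mul hκ1c.abs)) fun s => ?_
      change |P (a (pr 𝒜 s)) * κ1 s| ≤ δ / (M + 1) * |κ1 s|
      rw [abs_mul]
      exact mul_le_mul_of_nonneg_right (hPε _) (abs_nonneg _)
    have b2 : |∫ s, Q (a (pr 𝒜 s), b (pr 𝒜 s)) * κ2 s ∂μ| ≤ δ / (M + 1) * ∫ s, |κ2 s| ∂μ := by
      rw [← integral_const_mul]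
      refine (abs_integral_le_integral_abs).trans ?_
      refine integral_mono (integrable_of_cont c3.abs)
        (integrable_of_cont (continuous_const.mul hκ2c.abs)) fun s => ?_
      change |Q (a (pr 𝒜 s), b (pr 𝒜 s)) * κ2 s| ≤ δ / (M + 1) * |κ2 s|
      rw [abs_mul]
      exact mul_le_mul_of_nonneg_right (hQε _) (abs_nonneg _)
    have b3 : |∫ s, f (pr 𝒜 s) ^ n * ψ s * κ s ∂μ| ≤ δ := by
      have h1 : ∫ s, f (pr 𝒜 s) ^ n * ψ s * κ s ∂μ =
          ∫ s, Q (a (pr 𝒜 s), b (pr 𝒜 s)) * κ2 s ∂μ - ∫ s, P (a (pr 𝒜 s)) * κ1 s ∂μ := by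
        linarith
      rw [h1]
      refine (abs_sub _ _).trans ?_
      have h2 : δ / (M + 1) * M ≤ δ := by
        rw [div_mul_eq_mul_div, div_le_iff₀ (by positivity)]
        nlinarith
      have h3 : δ / (M + 1) * M = δ / (M + 1) * ∫ s, |κ1 s| ∂μ + δ / (M + 1) * ∫ s, |κ2 s| ∂μ := by
        rw [hM]; ring
      linarith
    have e2 : ∫ s, f (pr 𝒜 s) ^ n * ψ s * κ s ∂μ = ∫ s in pr 𝒜 ⁻¹' K, κ s ∂μ +
        ∫ s in (pr 𝒜 ⁻¹' K)ᶜ, f (pr 𝒜 s) ^ n * ψ s * κ s ∂μ := by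
      rw [← integral_add_compl hKp (integrable_of_cont c1)]
      congr 1
      refine setIntegral_congr_fun hKp fun s hs => ?_
      have hs' : pr 𝒜 s ∈ K := hs
      have h1 : f (pr 𝒜 s) = 1 := (hf1 _).1 hs'
      have h2 : ψ s = 1 := hPQ (a (pr 𝒜 s), b (pr 𝒜 s)) ⟨_, hs', rfl⟩
      change f (pr 𝒜 s) ^ n * ψ s * κ s = κ s
      rw [h1, h2]
      ring
    have b4 : |∫ s in (pr 𝒜 ⁻¹' K)ᶜ, f (pr 𝒜 s) ^ n * ψ s * κ s ∂μ| ≤
        ∫ s in (pr 𝒜 ⁻¹' K)ᶜ, f (pr 𝒜 s) ^ n * |κ s| ∂μ := by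
      refine (abs_integral_le_integral_abs).trans ?_
      refine integral_mono (integrable_of_cont c1.abs).integrableOn
        (integrable_of_cont (hhc.mul hκc.abs)).integrableOn fun s => ?_
      change |f (pr 𝒜 s) ^ n * ψ s * κ s| ≤ f (pr 𝒜 s) ^ n * |κ s|
      rw [abs_mul]
      refine mul_le_mul_of_nonneg_right ?_ (abs_nonneg _)
      have h1 : 0 ≤ f (pr 𝒜 s) ^ n := pow_nonneg (hf0 _) n
      have h2 : 0 ≤ ψ s := hψ0 (a (pr 𝒜 s), b (pr 𝒜 s))
      have h3 : ψ s ≤ 1 := hψ1 (a (pr 𝒜 s), b (pr 𝒜 s))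
      rw [abs_of_nonneg (mul_nonneg h1 h2)]
      exact mul_le_of_le_one_right h1 h3
    rw [integral_indicator hKp.compl]
    have e3 : ∫ s in pr 𝒜 ⁻¹' K, κ s ∂μ = ∫ s, f (pr 𝒜 s) ^ n * ψ s * κ s ∂μ -
        ∫ s in (pr 𝒜 ⁻¹' K)ᶜ, f (pr 𝒜 s) ^ n * ψ s * κ s ∂μ := by linarith
    rw [e3]
    refine (abs_sub _ _).trans ?_
    linarith
  -- the limit
  have hlim : Tendsto (fun n : ℕ => ∫ s, (pr 𝒜 ⁻¹' K)ᶜ.indicator
      (fun s => f (pr 𝒜 s) ^ n * |κ s|) s ∂μ) atTop (𝓝 (∫ _ : SS 𝒜, (0 : ℝ) ∂μ)) := by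
    refine tendsto_integral_of_dominated_convergence (fun s => |κ s|) ?_
      (integrable_of_cont hκc.abs) ?_ ?_
    · intro n
      have hhc : Continuous fun s : SS 𝒜 => f (pr 𝒜 s) ^ n :=
        ((hfs.continuous).comp hpc).pow n
      exact ((hhc.mul hκc.abs).measurable.indicator hKp.compl).aestronglyMeasurable
    · intro n
      refine Eventually.of_forall fun s => ?_
      by_cases hs : s ∈ (pr 𝒜 ⁻¹' K)ᶜ
      · rw [indicator_of_mem hs, Real.norm_eq_abs, abs_mul, abs_abs,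
          abs_of_nonneg (pow_nonneg (hf0 _) n)]
        exact mul_le_of_le_one_left (abs_nonneg _) (pow_le_one₀ (hf0 _) (hfle _))
      · rw [indicator_of_notMem hs, norm_zero]
        exact abs_nonneg _
    · refine Eventually.of_forall fun s => ?_
      by_cases hs : s ∈ (pr 𝒜 ⁻¹' K)ᶜ
      · simp only [indicator_of_mem hs]
        have h1 : f (pr 𝒜 s) < 1 := lt_of_le_of_ne (hfle _) fun h => hs ((hf1 _).2 h)
        have h2 := (tendsto_pow_atTop_nhds_zero_of_lt_one (hf0 (pr 𝒜 s)) h1).mul_const |κ s|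
        rwa [zero_mul] at h2
      · simp only [indicator_of_notMem hs]
        exact tendsto_const_nhds
  rw [integral_zero] at hlim
  have h1 : |∫ s in pr 𝒜 ⁻¹' K, κ s ∂μ| ≤ 0 := ge_of_tendsto' hlim key
  exact abs_eq_zero.1 (le_antisymm h1 (abs_nonneg _))

end Pool.Agent.N312.BU
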