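import Pool.Agent.N312.BU.Leaf
import Pool.Agent.Helper384.Minimax

/-!
The measure given by the Hahn-Banach theorem, and the tests in stages.
-/

set_option autoImplicit false

open Set Filter Topology MeasureTheory
open scoped Manifold ContDiff

noncomputable section

namespace Pool.Agent.N312.BU

open Pool.Agent.Y501.SY

/-- Fatou's lemma -/
theorem fatou {S : Type} [TopologicalSpace S] [CompactSpace S] [MeasurableSpace S]
    [BorelSpace S] (μ : Measure S) [IsProbabilityMeasure μ] {F : ℕ → S → ℝ}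
    (hF : ∀ k, Continuous (F k)) {M : ℝ} (hM : ∀ k, ∀ᵐ s ∂μ, -M ≤ F k s)
    (hint : ∀ k, ∫ s, F k s ∂μ ≤ 0) :
    ∫⁻ s, liminf (fun k => ENNReal.ofReal (F k s + M)) atTop ∂μ ≤ ENNReal.ofReal M := by
  have hmeas : ∀ k, Measurable fun s => ENNReal.ofReal (F k s + M) :=
    fun k => ((hF k).add continuous_const).measurable.ennreal_ofReal
  have h1 : ∀ k, ∫⁻ s, ENNReal.ofReal (F k s + M) ∂μ ≤ ENNReal.ofReal M := by
    intro k
    have hi : Integrable (fun s => F k s + M) μ :=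
      integrable_of_cont ((hF k).add continuous_const)
    rw [← ofReal_integral_eq_lintegral_ofReal hi
      ((hM k).mono fun s hs => by
        change 0 ≤ F k s + M
        linarith)]
    refine ENNReal.ofReal_le_ofReal ?_
    rw [integral_add (integrable_of_cont (hF k)) (integrable_const M), integral_const,
      probReal_univ, one_smul]
    linarith [hint k]
  refine (lintegral_liminf_le hmeas).trans ?_
  exact (liminf_le_liminf (Eventually.of_forall h1)).trans (by simp)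

theorem ae_not_tendsto {S : Type} [TopologicalSpace S] [CompactSpace S] [MeasurableSpace S]
    [BorelSpace S] (μ : Measure S) [IsProbabilityMeasure μ] {F : ℕ → S → ℝ}
    (hF : ∀ k, Continuous (F k)) {M : ℝ} (hM : ∀ k, ∀ᵐ s ∂μ, -M ≤ F k s)
    (hint : ∀ k, ∫ s, F k s ∂μ ≤ 0) : ∀ᵐ s ∂μ, ¬ Tendsto (fun k => F k s) atTop atTop := by
  have hmeas : ∀ k, Measurable fun s => ENNReal.ofReal (F k s + M) :=
    fun k => ((hF k).add continuous_const).measurable.ennreal_ofReal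
  have h3 := ae_lt_top (Measurable.liminf hmeas)
    ((fatou μ hF hM hint).trans_lt ENNReal.ofReal_lt_top).ne
  filter_upwards [h3] with s hs ht
  have h4 : Tendsto (fun k => ENNReal.ofReal (F k s + M)) atTop (𝓝 ⊤) :=
    ENNReal.tendsto_ofReal_atTop.comp (tendsto_atTop_add_const_right _ _ ht)
  rw [h4.liminf_eq] at hs
  exact lt_irrefl _ hs

theorem ae_not_pos {S : Type} [TopologicalSpace S] [CompactSpace S] [MeasurableSpace S]
    [BorelSpace S] (μ : Measure S) [IsProbabilityMeasure μ] {F : ℕ → S → ℝ}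
    (hF : ∀ k, Continuous (F k)) {M : ℝ} (hM0 : 0 ≤ M) (hM : ∀ k, ∀ᵐ s ∂μ, -M ≤ F k s)
    (hint : ∀ k, ∫ s, F k s ∂μ ≤ 0)
    (hnef : ∀ᵐ s ∂μ, ∀ ε : ℝ, 0 < ε → ∀ᶠ k in atTop, -ε < F k s) :
    ∀ᵐ s ∂μ, ¬ ∃ ε : ℝ, 0 < ε ∧ ∀ᶠ k in atTop, ε ≤ F k s := by
  have hmeas : ∀ k, Measurable fun s => ENNReal.ofReal (F k s + M) :=
    fun k => ((hF k).add continuous_const).measurable.ennreal_ofReal
  have h1 : ∀ᵐ s ∂μ, ENNReal.ofReal M ≤ liminf (fun k => ENNReal.ofReal (F k s + M)) atTop := by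
    filter_upwards [hnef] with s hs
    have h2 : ∀ ε : ℝ, 0 < ε → ENNReal.ofReal (M - ε) ≤
        liminf (fun k => ENNReal.ofReal (F k s + M)) atTop := by
      intro ε hε
      refine le_liminf_of_le (by isBoundedDefault) ?_
      filter_upwards [hs ε hε] with k hk
      exact ENNReal.ofReal_le_ofReal (by linarith)
    have h3 : Tendsto (fun ε : ℝ => ENNReal.ofReal (M - ε)) (𝓝[>] 0) (𝓝 (ENNReal.ofReal M)) := by
      have h4 : Continuous fun ε : ℝ => ENNReal.ofReal (M - ε) :=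
        ENNReal.continuous_ofReal.comp (continuous_const.sub continuous_id)
      have h5 := h4.tendsto 0
      simp only [sub_zero] at h5
      exact h5.mono_left nhdsWithin_le_nhds
    exact le_of_tendsto h3 (eventually_mem_nhdsWithin.mono fun ε hε => h2 ε hε)
  have h2 : (fun _ : S => ENNReal.ofReal M) =ᵐ[μ]
      fun s => liminf (fun k => ENNReal.ofReal (F k s + M)) atTop := by
    refine ae_eq_of_ae_le_of_lintegral_le h1 ?_ (Measurable.liminf hmeas).aemeasurable ?_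
    · rw [lintegral_const, measure_univ, mul_one]
      exact ENNReal.ofReal_ne_top
    · rw [lintegral_const, measure_univ, mul_one]
      exact fatou μ hF hM hint
  filter_upwards [h2] with s hs
  rintro ⟨ε, hε, hk⟩
  have h3 : ENNReal.ofReal (M + ε) ≤ liminf (fun k => ENNReal.ofReal (F k s + M)) atTop := by
    refine le_liminf_of_le (by isBoundedDefault) ?_
    filter_upwards [hk] with k hk
    exact ENNReal.ofReal_le_ofReal (by linarith)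
  rw [← hs] at h3
  have h4 : ENNReal.ofReal M < ENNReal.ofReal (M + ε) :=
    (ENNReal.ofReal_lt_ofReal_iff (by linarith)).2 (by linarith)
  exact absurd h3 (not_le.2 h4)

variable {d : ℕ} {X : Type} [TopologicalSpace X] [ChartedSpace (E d) X]
  [IsManifold (𝓡 d) ∞ X]

theorem qf_add (𝒜 : Atl d X) (J : End d X) (σ η : Form d X 2) (s : SS 𝒜) :
    qf 𝒜 (σ + η) J s = qf 𝒜 σ J s + qf 𝒜 η J s := by
  rw [qf_eq, qf_eq, qf_eq]
  rfl

theorem qf_smul (𝒜 : Atl d X) (J : End d X) (c : ℝ) (η : Form d X 2) (s : SS 𝒜) :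
    qf 𝒜 (c • η) J s = c * qf 𝒜 η J s := by
  rw [qf_eq, qf_eq]
  rfl

theorem low_bound (𝒜 : Atl d X) {J : End d X} (hJ : IsAlmostComplex J) {μ : Measure (SS 𝒜)}
    {L : ∀ x : X, TangentSpace (𝓡 d) x → Prop} (hL : ∀ᵐ s ∂μ, L (pr 𝒜 s) (vc 𝒜 s))
    {τ : ℕ → Form d X 2}
    (h : ∃ γ : Form d X 2, IsSmooth γ ∧ ∀ (k : ℕ) (x : X) (v : TangentSpace (𝓡 d) x), L x v →
      γ x ![v, J x v] ≤ τ k x ![v, J x v]) :
    ∃ M : ℝ, 0 ≤ M ∧ ∀ k, ∀ᵐ s ∂μ, -M ≤ qf 𝒜 (τ k) J s := by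
  obtain ⟨γ, hγ, h⟩ := h
  obtain ⟨C, hC⟩ := (isCompact_range (continuous_qf 𝒜 hγ hJ)).isBounded.exists_norm_le
  refine ⟨max C 0, le_max_right _ _, fun k => ?_⟩
  filter_upwards [hL] with s hs
  have h1 := hC _ (mem_range_self s)
  rw [Real.norm_eq_abs] at h1
  have h2 := h k (pr 𝒜 s) (vc 𝒜 s) hs
  rw [← qf_eq, ← qf_eq] at h2
  have h3 := (abs_le.1 h1).1
  have h4 := le_max_left C 0
  linarith

/-- the cone spanned by `C` and the exact forms -/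
def KC (C : Set (Form d X 2)) : Set (Form d X 2) :=
  {θ | ∃ (s : ℝ) (w η : Form d X 2), 0 ≤ s ∧ w ∈ C ∧ Ex η ∧ θ = s • w + η}

variable [CompactSpace X] [T2Space X]

/-- the measure given by the Hahn-Banach theorem -/
theorem exists_mu {J : End d X} (hJ : IsAlmostComplex J) (C : Set (Form d X 2))
    (hCn : C.Nonempty) (hCs : ∀ w ∈ C, IsSmooth w) (hCc : Convex ℝ C)
    (hCex : ∀ w ∈ C, ∀ η : Form d X 2, Ex η → w + η ∈ C)
    (hcon : ¬ ∃ w ∈ C, ∀ x, TamesAt w J x) :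
    ∃ (𝒜 : Atl d X) (μ : Measure (SS 𝒜)), IsProbabilityMeasure μ ∧
      (∀ η : Form d X 2, Ex η → ∫ s, qf 𝒜 η J s ∂μ = 0) ∧
      ∀ w ∈ KC C, IsSmooth w ∧ ∫ s, qf 𝒜 w J s ∂μ ≤ 0 := by
  obtain ⟨𝒜⟩ := exists_atl (d := d) (X := X)
  have hconv : Convex ℝ {g : C(SS 𝒜, ℝ) | ∃ w ∈ C, ∀ s, g s = qf 𝒜 w J s} := by
    rintro g ⟨w, hw, hg⟩ g' ⟨w', hw', hg'⟩ t t' ht ht' htt
    refine ⟨t • w + t' • w', hCc hw hw' ht ht' htt, fun s => ?_⟩
    rw [qf_add, qf_smul, qf_smul]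
    simp only [ContinuousMap.add_apply, ContinuousMap.smul_apply, smul_eq_mul, hg, hg']
  have hno : ∀ g ∈ convexHull ℝ {g : C(SS 𝒜, ℝ) | ∃ w ∈ C, ∀ s, g s = qf 𝒜 w J s},
      ∃ s, g s ≤ 0 := by
    intro g hg
    rw [hconv.convexHull_eq] at hg
    obtain ⟨w, hw, hge⟩ := hg
    by_contra hne
    push Not at hne
    refine hcon ⟨w, hw, fun x => tames_of_pos 𝒜 (fun s => ?_) x⟩
    rw [← hge]
    exact hne s
  obtain ⟨w₀, hw₀⟩ := hCn
  have hc₀ : Continuous (qf 𝒜 w₀ J) := continuous_qf 𝒜 (hCs _ hw₀) hJ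
  have hnem : {g : C(SS 𝒜, ℝ) | ∃ w ∈ C, ∀ s, g s = qf 𝒜 w J s}.Nonempty :=
    ⟨⟨qf 𝒜 w₀ J, hc₀⟩, w₀, hw₀, fun s => rfl⟩
  obtain ⟨μ, hμ, hμB⟩ := Pool.Agent.Helper384.exists_measure _ hnem hno
  have hle0 : ∀ w ∈ C, ∫ s, qf 𝒜 w J s ∂μ ≤ 0 := fun w hw =>
    hμB ⟨qf 𝒜 w J, continuous_qf 𝒜 (hCs w hw) hJ⟩ ⟨w, hw, fun s => rfl⟩
  have hex0 : ∀ η : Form d X 2, Ex η → ∫ s, qf 𝒜 η J s ∂μ = 0 := by
    intro η hη
    have hi0 := integrable_of_cont (μ := μ) hc₀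
    have hiη := integrable_of_cont (μ := μ) (continuous_qf 𝒜 hη.choose_spec.2.1 hJ)
    have h1 : ∀ t : ℝ, ∫ s, qf 𝒜 w₀ J s ∂μ + t * ∫ s, qf 𝒜 η J s ∂μ ≤ 0 := by
      intro t
      have h2 := hle0 _ (hCex w₀ hw₀ (t • η) (hη.smul t))
      simp only [qf_add, qf_smul] at h2
      rw [integral_add hi0 (hiη.const_mul t), integral_const_mul] at h2
      exact h2
    set A := ∫ s, qf 𝒜 w₀ J s ∂μ
    set B := ∫ s, qf 𝒜 η J s ∂μ
    by_contra hB
    have h2 := h1 ((1 - A) / B)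
    rw [div_mul_cancel₀ _ hB] at h2
    linarith
  refine ⟨𝒜, μ, hμ, hex0, ?_⟩
  rintro _ ⟨s, w, η, hs, hw, hη, rfl⟩
  refine ⟨((hCs w hw).smul s).add hη.choose_spec.2.1, ?_⟩
  simp only [qf_add, qf_smul]
  rw [integral_add ((integrable_of_cont (continuous_qf 𝒜 (hCs w hw) hJ)).const_mul s)
    (integrable_of_cont (continuous_qf 𝒜 hη.choose_spec.2.1 hJ)), integral_const_mul,
    hex0 η hη, add_zero]
  exact mul_nonpos_of_nonneg_of_nonpos hs (hle0 w hw)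

/-- the tests in stages -/
theorem stages (𝒜 : Atl d X) {J : End d X} (hJ : IsAlmostComplex J) (μ : Measure (SS 𝒜))
    [IsProbabilityMeasure μ] (hex : ∀ η : Form d X 2, Ex η → ∫ s, qf 𝒜 η J s ∂μ = 0)
    (K : Set (Form d X 2)) (hK : ∀ w ∈ K, IsSmooth w ∧ ∫ s, qf 𝒜 w J s ∂μ ≤ 0)
    (τ σ : ℕ → ℕ → Form d X 2) (hτK : ∀ i k, τ i k ∈ K) (hσK : ∀ i k, σ i k ∈ K)
    (N : ℕ → ℕ → Set X) (L : ℕ → ∀ x : X, TangentSpace (𝓡 d) x → Prop)
    (hτb : ∀ i, ∃ γ : Form d X 2, IsSmooth γ ∧ ∀ (k : ℕ) (x : X) (v : TangentSpace (𝓡 d) x),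
      L i x v → γ x ![v, J x v] ≤ τ i k x ![v, J x v])
    (hσb : ∀ i, ∃ γ : Form d X 2, IsSmooth γ ∧ ∀ (k : ℕ) (x : X) (v : TangentSpace (𝓡 d) x),
      L i x v → γ x ![v, J x v] ≤ σ i k x ![v, J x v])
    (hL0 : ∀ᵐ s ∂μ, L 0 (pr 𝒜 s) (vc 𝒜 s))
    (hLs : ∀ (j : ℕ) (x : X) (v : TangentSpace (𝓡 d) x), v ≠ 0 → L j x v →
      (∀ i, ¬ Rm J (N j i) (L j) x v) →
      ¬ Tendsto (fun k => τ j k x ![v, J x v]) atTop atTop →
      (¬ ∃ ε : ℝ, 0 < ε ∧ ∀ᶠ k in atTop, ε ≤ σ j k x ![v, J x v]) → L (j + 1) x v)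
    (hnef : ∀ (j : ℕ) (x : X) (v : TangentSpace (𝓡 d) x), L j x v →
      ∀ ε : ℝ, 0 < ε → ∀ᶠ k in atTop, -ε < σ j k x ![v, J x v]) :
    ∀ᵐ s ∂μ, ∀ j, L j (pr 𝒜 s) (vc 𝒜 s) := by
  rw [ae_all_iff]
  intro j
  induction j with
  | zero => exact hL0
  | succ j ih =>
    obtain ⟨M, hM0, hM⟩ := low_bound 𝒜 hJ ih (hσb j)
    obtain ⟨M', hM0', hM'⟩ := low_bound 𝒜 hJ ih (hτb j)
    have hnpos := ae_not_pos μ (fun k => continuous_qf 𝒜 (hK _ (hσK j k)).1 hJ) hM0 hM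
      (fun k => (hK _ (hσK j k)).2) (ih.mono fun s hs => by
        have := hnef j _ _ hs
        simpa only [← qf_eq] using this)
    have hntop := ae_not_tendsto μ (fun k => continuous_qf 𝒜 (hK _ (hτK j k)).1 hJ) hM'
      (fun k => (hK _ (hτK j k)).2)
    have hnrm : ∀ᵐ s ∂μ, ∀ i, ¬ Rm J (N j i) (L j) (pr 𝒜 s) (vc 𝒜 s) := by
      rw [ae_all_iff]
      intro i
      exact ae_not_rm 𝒜 hJ μ (fun α η hp => hex η (Ex.of_pair hp)) (N j i) (L j) ih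
    filter_upwards [ih, hnpos, hntop, hnrm] with s h1 h2 h3 h4
    refine hLs j _ _ (vc_ne 𝒜 s) h1 h4 ?_ ?_
    · simpa only [← qf_eq] using h3
    · simpa only [← qf_eq] using h2

end Pool.Agent.N312.BU
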