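import Pool.Agent.N312.BU.Pub
import Pool.Agent.N312.BU.Main
import Pool.Agent.Y501.SY.BridgeT

/-!
Comparison of the definitions.
-/

set_option autoImplicit false

open Set Filter Topology MeasureTheory
open scoped Manifold ContDiff

noncomputable section

namespace Pool.Agent.N312.BU

open Pool.Agent.Y501.SY

variable {d : ℕ} {X : Type} [TopologicalSpace X] [ChartedSpace (E d) X]

theorem rm_thin {J : End d X} {N : Set X} {L : ∀ x : X, TangentSpace (𝓡 d) x → Prop} {x : X}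
    {v : TangentSpace (𝓡 d) x} (hx : x ∈ N) (hv : v ≠ 0) (h : ThinAt2 0 0 J N x) :
    Rm J N L x v := by
  obtain ⟨n, a, b, V, hV, ha, hb, hnull, hpos⟩ := h
  refine ⟨hx, n, a, b, V, hV, ha, hb, hnull, fun w _ => ?_, hpos v hv rfl rfl⟩
  by_cases hw : w = 0
  · subst hw
    refine le_of_eq (Eq.symm ?_)
    exact ContinuousAlternatingMap.map_coord_zero _ (0 : Fin 2) rfl
  · exact (hpos w hw rfl rfl).le

variable [IsManifold (𝓡 d) ∞ X] [T2Space X]

theorem rm_level {J : End d X} (hJ : IsAlmostComplex J) {N : Set X}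
    {L : ∀ x : X, TangentSpace (𝓡 d) x → Prop} {x : X} {v : TangentSpace (𝓡 d) x} (hx : x ∈ N)
    {a : X → ℝ} (ha : SmoothFun (d := d) a) {V : Set X} (hV : V ∈ 𝓝 x)
    (hnull : volume (a '' (N ∩ V)) = 0)
    (hv : dd (d := d) a x v ≠ 0 ∨ dd (d := d) a x (J x v) ≠ 0) :
    Rm J N L x v := by
  obtain ⟨b, hb, hbx⟩ := exists_fun (d := d) x (-((dd (d := d) a x).comp (J x)))
  have hb' : ∀ w : TangentSpace (𝓡 d) x, dd b x w = -(dd (d := d) a x (J x w)) := fun w => hbx w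
  have he : ∀ w : TangentSpace (𝓡 d) x, (∑ _j : Fin 1, dfdg (d := d) a b) x ![w, J x w] =
      (dd (d := d) a x w) ^ 2 + (dd (d := d) a x (J x w)) ^ 2 := by
    intro w
    rw [sum_apply2]
    simp only [Finset.univ_unique, Finset.sum_singleton]
    rw [dfdg_apply, hb', hb', hJ.sq, map_neg]
    ring
  refine ⟨hx, 1, fun _ => a, fun _ => b, V, hV, fun _ => ha, fun _ => hb, fun _ => ?_,
    fun w _ => ?_, ?_⟩
  · have hsub : (fun y => (a y, b y)) '' (N ∩ V) ⊆ (a '' (N ∩ V)) ×ˢ univ := by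
      rintro _ ⟨y, hy, rfl⟩
      exact ⟨⟨y, hy, rfl⟩, mem_univ _⟩
    refine measure_mono_null hsub ?_
    rw [Measure.volume_eq_prod, Measure.prod_prod, hnull, zero_mul]
  · rw [he]
    positivity
  · rw [he]
    rcases hv with h | h
    · have := sq_pos_of_ne_zero h
      have := sq_nonneg (dd (d := d) a x (J x v))
      linarith
    · have := sq_pos_of_ne_zero h
      have := sq_nonneg (dd (d := d) a x v)
      linarith

end Pool.Agent.N312.BU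

namespace Pool.Agent.N312.BUP

open Pool.Agent.Y501.SYP

variable {d : ℕ} {X : Type} [TopologicalSpace X] [ChartedSpace (ES d) X]

attribute [local instance] cs mf

theorem removed_rm [IsManifold 𝓘(ℝ, ES d) ∞ X] [T2Space X] {J : End (ES d) X}
    (hJ : IsAlmostComplex J) {N : Set X} {L : VSet (ES d) X} {x : X}
    {v : TangentSpace 𝓘(ℝ, ES d) x} (hv : v ≠ 0) (h : Removed J N L x v) :
    BU.Rm (d := d) (X := X) J N L x v := by
  obtain ⟨hx, h | ⟨a, ha, ⟨U, hU, hnull⟩, hav⟩ | ⟨n, a, b, hab, hnn, hpos⟩⟩ := h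
  · exact BU.rm_thin (d := d) (X := X) hx hv (smallAll_of hJ (Or.inl h))
  · exact BU.rm_level (d := d) (X := X) (ac_of J hJ) hx ha hU hnull hav
  · choose U hU hU0 using fun i => (hab i).null
    have he : ∀ w : TangentSpace 𝓘(ℝ, ES d) x,
        (∑ i, Pool.Agent.Y501.SY.dfdg (d := d) (X := X) (a i) (b i)) x ![w, J x w] =
        ∑ i, (dd (a i) x w * dd (b i) x (J x w) - dd (a i) x (J x w) * dd (b i) x w) := by
      intro w
      have e := Pool.Agent.Y501.SY.sum_apply2 (d := d) (X := X) Finset.univ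
        (fun i => Pool.Agent.Y501.SY.dfdg (d := d) (X := X) (a i) (b i)) x ![w, J x w]
      refine Eq.trans e ?_
      exact Finset.sum_congr rfl fun i _ =>
        (Pool.Agent.Y501.SY.dfdg_apply (d := d) (X := X) (a i) (b i) x w (J x w))
    refine ⟨hx, n, a, b, ⋂ i, U i, Filter.iInter_mem.2 hU, fun i => (hab i).smooth_a,
      fun i => (hab i).smooth_b, fun i => ?_, fun w hw => ?_, ?_⟩
    · exact measure_mono_null (image_mono (inter_subset_inter_right _ (iInter_subset _ _)))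
        (hU0 i)
    · exact (hnn w hw).trans_eq (he w).symm
    · exact hpos.trans_eq (he v).symm

theorem qd_J {J : End (ES d) X} (hJ : IsAlmostComplex J) (w : Form (ES d) X 2) (x : X)
    (v : TangentSpace 𝓘(ℝ, ES d) x) : qd w J x (J x v) = qd w J x v :=
  Pool.Agent.Y501.SY.null_J (d := d) (X := X) (ac_of J hJ) w x v

theorem nullPair_J {J : End (ES d) X} (hJ : IsAlmostComplex J) {x : X}
    (v : TangentSpace 𝓘(ℝ, ES d) x) (a b : X → ℝ) :
    dd a x (J x v) * dd b x (J x (J x v)) - dd a x (J x (J x v)) * dd b x (J x v) =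
      dd a x v * dd b x (J x v) - dd a x (J x v) * dd b x v := by
  have h1 : ∀ c : X → ℝ, dd c x (J x (J x v)) = - dd c x v := by
    intro c
    rw [hJ.sq]
    exact map_neg (mfderiv 𝓘(ℝ, ES d) 𝓘(ℝ, ℝ) c x) v
  rw [h1, h1]
  ring

theorem removed_J {J : End (ES d) X} (hJ : IsAlmostComplex J) {N : Set X} {L : VSet (ES d) X}
    {x : X} {v : TangentSpace 𝓘(ℝ, ES d) x} (h : Removed J N L x (J x v)) :
    Removed J N L x v := by
  obtain ⟨hx, h | ⟨a, ha, hU, hav⟩ | ⟨n, a, b, hab, hnn, hpos⟩⟩ := h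
  · exact ⟨hx, Or.inl h⟩
  · refine ⟨hx, Or.inr (Or.inl ⟨a, ha, hU, ?_⟩)⟩
    rcases hav with h | h
    · exact Or.inr h
    · refine Or.inl fun h0 => h ?_
      rw [hJ.sq]
      have h1 : dd a x (-v) = - dd a x v := map_neg (mfderiv 𝓘(ℝ, ES d) 𝓘(ℝ, ℝ) a x) v
      rw [h1, h0, neg_zero]
  · refine ⟨hx, Or.inr (Or.inr ⟨n, a, b, hab, hnn, ?_⟩)⟩
    simpa only [nullPair_J hJ] using hpos

theorem left_J {T : Tests (ES d) X} {J : End (ES d) X} (hJ : IsAlmostComplex J)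
    {L : VSet (ES d) X} (hL : ∀ x v, L x v → L x (J x v)) {j : ℕ} {x : X}
    {v : TangentSpace 𝓘(ℝ, ES d) x} (h : T.Left J L j x v) : T.Left J L j x (J x v) := by
  induction j with
  | zero => exact hL x v h
  | succ j ih =>
    obtain ⟨h1, h2, h3, h4⟩ := h
    refine ⟨ih h1, fun i h => h2 i (removed_J hJ h), ?_, ?_⟩
    · simpa only [qd_J hJ] using h3
    · simpa only [qd_J hJ] using h4

theorem left_sub {T : Tests (ES d) X} {J : End (ES d) X} {L : VSet (ES d) X} {j : ℕ} {x : X}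
    {v : TangentSpace 𝓘(ℝ, ES d) x} (h : T.Left J L j x v) : L x v := by
  induction j with
  | zero => exact h
  | succ j ih => exact ih h.1

theorem piece_J {T : Tests (ES d) X} {J : End (ES d) X} (hJ : IsAlmostComplex J)
    {L : VSet (ES d) X} (hL : ∀ x v, L x v → L x (J x v)) {z x : X}
    {v : TangentSpace 𝓘(ℝ, ES d) x} (h : T.Piece J L z x v) : T.Piece J L z x (J x v) :=
  ⟨fun j => left_J hJ hL (h.1 j), h.2⟩

theorem hlow {J : End (ES d) X} {L : VSet (ES d) X} {τ : ℕ → Form (ES d) X 2}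
    (h : LowerBounded J L τ) :
    ∃ γ : Pool.Agent.Y501.SY.Form d X 2, Pool.Agent.Y501.SY.IsSmooth γ ∧
      ∀ (k : ℕ) (x : X) (v : TangentSpace (𝓡 d) x), L x v →
        γ x ![v, J x v] ≤ τ k x ![v, J x v] := by
  obtain ⟨γ, h1, h2⟩ := h
  exact ⟨γ, (smooth_iff γ).1 h1, h2⟩

theorem ex_of {η : Form (ES d) X 2} (h : ExactForm η) : BU.Ex (d := d) (X := X) η := by
  obtain ⟨α, h1, h2, h3⟩ := h
  exact ⟨α, (smooth_iff α).1 h1, (smooth_iff η).1 h2, (isD_iff α η).1 h3⟩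

theorem ex_to {η : Form (ES d) X 2} (h : BU.Ex (d := d) (X := X) η) : ExactForm η := by
  obtain ⟨α, h1, h2, h3⟩ := h
  exact ⟨α, (smooth_iff α).2 h1, (smooth_iff η).2 h2, (isD_iff α η).2 h3⟩

variable [IsManifold 𝓘(ℝ, ES d) ∞ X] [CompactSpace X] [T2Space X]

theorem rest_ae {J : End (ES d) X} (hJ : IsAlmostComplex J) (𝒜 : BU.Atl d X)
    (μ : Measure (BU.SS 𝒜)) [IsProbabilityMeasure μ]
    (hex : ∀ η : Pool.Agent.Y501.SY.Form d X 2, BU.Ex η → ∫ s, BU.qf 𝒜 η J s ∂μ = 0)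
    {K : Set (Form (ES d) X 2)}
    (hK : ∀ w ∈ K, Pool.Agent.Y501.SY.IsSmooth (d := d) (X := X) w ∧
      ∫ s, BU.qf 𝒜 w J s ∂μ ≤ 0)
    {L : VSet (ES d) X} {T : Tests (ES d) X} (hT : T.Admissible J K L)
    (hL : ∀ᵐ s ∂μ, L (BU.pr 𝒜 s) (BU.vc 𝒜 s)) :
    ∀ᵐ s ∂μ, T.Rest J L (BU.pr 𝒜 s) (BU.vc 𝒜 s) :=
  BU.stages 𝒜 (ac_of J hJ) μ hex K hK T.τ T.σ hT.mem_τ hT.mem_σ T.N (T.Left J L)
    (fun j => hlow (hT.low_τ j)) (fun j => hlow (hT.low_σ j)) hL
    (fun j x v hv h1 h2 h3 h4 => ⟨h1, fun i h => h2 i (removed_rm hJ hv h), h3, h4⟩)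
    (fun j x v h => hT.nonneg j x v h)

theorem piece_ae {J : End (ES d) X} (hJ : IsAlmostComplex J) (𝒜 : BU.Atl d X)
    (μ : Measure (BU.SS 𝒜)) [IsProbabilityMeasure μ]
    (hex : ∀ η : Pool.Agent.Y501.SY.Form d X 2, BU.Ex η → ∫ s, BU.qf 𝒜 η J s ∂μ = 0)
    {L : VSet (ES d) X} (hLJ : ∀ x v, L x v → L x (J x v)) {T : Tests (ES d) X}
    (hL : ∀ᵐ s ∂μ, T.Rest J L (BU.pr 𝒜 s) (BU.vc 𝒜 s)) :
    ∃ μ' : Measure (BU.SS 𝒜), IsProbabilityMeasure μ' ∧
      (∀ η : Pool.Agent.Y501.SY.Form d X 2, BU.Ex η → ∫ s, BU.qf 𝒜 η J s ∂μ' = 0) ∧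
      ∃ z, ∀ᵐ s ∂μ', T.Piece J L z (BU.pr 𝒜 s) (BU.vc 𝒜 s) := by
  obtain ⟨μ', h1, h2, h3, z, h4⟩ := BU.exists_leaf 𝒜 (ac_of J hJ) μ hex (T.Rest J L)
    (fun x v h j => left_J hJ hLJ (h j)) hL
  exact ⟨μ', h1, h2, z, h3.and h4⟩

theorem void_false {J : End (ES d) X} (hJ : IsAlmostComplex J) (𝒜 : BU.Atl d X)
    {L : VSet (ES d) X} (h : Void J L) (hLJ : ∀ x v, L x v → L x (J x v))
    (μ : Measure (BU.SS 𝒜)) [IsProbabilityMeasure μ]
    (hex : ∀ η : Pool.Agent.Y501.SY.Form d X 2, BU.Ex η → ∫ s, BU.qf 𝒜 η J s ∂μ = 0)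
    (hL : ∀ᵐ s ∂μ, L (BU.pr 𝒜 s) (BU.vc 𝒜 s)) : False := by
  induction h generalizing μ with
  | empty L h =>
    obtain ⟨s, hs⟩ := hL.exists
    exact h _ _ hs
  | step L T hT _ ih =>
    have h1 := rest_ae hJ 𝒜 μ hex (K := {η | ExactForm η})
      (fun w hw => ⟨(ex_of hw).choose_spec.2.1, (hex w (ex_of hw)).le⟩) hT hL
    obtain ⟨μ', h2, h3, z, h4⟩ := piece_ae hJ 𝒜 μ hex hLJ h1
    exact ih z (fun x v h => piece_J hJ hLJ h) μ' h3 h4

theorem nonzero_J {J : End (ES d) X} (hJ : IsAlmostComplex J) (x : X)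
    (v : TangentSpace 𝓘(ℝ, ES d) x) (h : NonzeroVectors (ES d) X x v) :
    NonzeroVectors (ES d) X x (J x v) := by
  intro h0
  have h1 := hJ.sq x v
  rw [h0, map_zero] at h1
  exact h (neg_eq_zero.1 h1.symm)

theorem taming_of_tests {J : End (ES d) X} (hJ : IsAlmostComplex J)
    {C : Set (Form (ES d) X 2)} (hC : IsTestClass C) {T : Tests (ES d) X}
    (hT : T.Admissible J (ConeOf C) (NonzeroVectors (ES d) X))
    (hV : ∀ z, Void J (T.Piece J (NonzeroVectors (ES d) X) z)) :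
    ∃ w ∈ C, IsTamingSymplectic w J := by
  by_contra hcon
  obtain ⟨𝒜, μ, hμ, hex, hKC⟩ := BU.exists_mu (d := d) (X := X) (J := J) (ac_of J hJ) C
    hC.nonempty (fun w hw => (smooth_iff w).1 (hC.smooth w hw)) hC.convex
    (fun w hw η hη => hC.exact w hw η (ex_to hη))
    (fun ⟨w, hw, ht⟩ => hcon ⟨w, hw, symp_of (hC.smooth w hw) (hC.closed w hw) ht⟩)
  have hK : ∀ w ∈ ConeOf C, Pool.Agent.Y501.SY.IsSmooth (d := d) (X := X) w ∧
      ∫ s, BU.qf 𝒜 w J s ∂μ ≤ 0 := by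
    rintro θ ⟨s, w, η, hs, hw, hη, he⟩
    exact hKC θ ⟨s, w, η, hs, hw, ex_of hη, he⟩
  have h1 := rest_ae hJ 𝒜 μ hex hK hT (Eventually.of_forall fun s => BU.vc_ne 𝒜 s)
  obtain ⟨μ', h2, h3, z, h4⟩ := piece_ae hJ 𝒜 μ hex (nonzero_J hJ) h1
  exact void_false hJ 𝒜 (hV z) (fun x v h => piece_J hJ (nonzero_J hJ) h) μ' h3 h4

omit [IsManifold 𝓘(ℝ, ES d) ∞ X] [CompactSpace X] [T2Space X]

theorem exact_zero : ExactForm (0 : Form (ES d) X 2) :=
  ⟨0, (smooth_iff _).2 Pool.Agent.Y501.SY.IsSmooth.zero,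
    (smooth_iff _).2 Pool.Agent.Y501.SY.IsSmooth.zero,
    (isD_iff _ _).2 Pool.Agent.Y501.SY.IsD.zero⟩

theorem tests_of_taming {J : End (ES d) X} {C : Set (Form (ES d) X 2)}
    {w : Form (ES d) X 2} (hw : w ∈ C) (ht : IsTamingSymplectic w J) :
    ∃ T : Tests (ES d) X, T.Admissible J (ConeOf C) (NonzeroVectors (ES d) X) ∧
      ∀ z, Void J (T.Piece J (NonzeroVectors (ES d) X) z) := by
  have hm : w ∈ ConeOf C := ⟨1, w, 0, zero_le_one, hw, exact_zero, by simp⟩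
  have hpos : ∀ (x : X) (v : TangentSpace 𝓘(ℝ, ES d) x), v ≠ 0 → 0 < qd w J x v :=
    fun x v hv => ht.tames x v hv
  have hl : ∀ L : VSet (ES d) X, LowerBounded J L (fun _ : ℕ => w) :=
    fun L => ⟨w, ht.smooth, fun k x v _ => le_rfl⟩
  refine ⟨⟨fun _ _ => ∅, fun _ _ => w, fun _ _ => w⟩, ⟨fun _ _ => hm, fun _ _ => hm,
    fun _ => hl _, fun _ => hl _, ?_⟩, fun z => Void.empty _ ?_⟩
  · intro j x v h ε hε
    refine Eventually.of_forall fun k => ?_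
    have := hpos x v (left_sub h)
    change -ε < qd w J x v
    linarith
  · rintro x v ⟨h, -⟩
    have h1 := (h 1).2.2.2
    exact absurd ⟨qd w J x v, hpos x v (left_sub (h 0)), Eventually.of_forall fun k => le_rfl⟩ h1

theorem removed_of_small {J : End (ES d) X} {N : Set X} {L : VSet (ES d) X} {x : X}
    {v : TangentSpace 𝓘(ℝ, ES d) x} (hx : x ∈ N) (hv : v ≠ 0) (h : SmallAll J N x) :
    Removed J N L x v := by
  rcases h with h | h | ⟨n, a, b, hab, hpos⟩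
  · exact ⟨hx, Or.inl h⟩
  · have h1 : ¬ (ZT N x v ∧ ZT N x (J x v)) := fun h2 => hv (h v h2.1 h2.2)
    have h2 : ∃ g : X → ℝ, SmoothFun (V := ES d) g ∧ (∀ y ∈ N, g y = 0) ∧
        (dd g x v ≠ 0 ∨ dd g x (J x v) ≠ 0) := by
      by_contra hcon
      push Not at hcon
      exact h1 ⟨fun g hg hg0 => (hcon g hg hg0).1, fun g hg hg0 => (hcon g hg hg0).2⟩
    obtain ⟨g, hg, hg0, hgv⟩ := h2
    refine ⟨hx, Or.inr (Or.inl ⟨g, hg, ⟨univ, Filter.univ_mem, ?_⟩, hgv⟩)⟩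
    refine measure_mono_null (t := {(0 : ℝ)}) ?_ (measure_singleton 0)
    rintro _ ⟨y, hy, rfl⟩
    exact hg0 y hy.1
  · refine ⟨hx, Or.inr (Or.inr ⟨n, a, b, hab, fun w _ => ?_, hpos v hv trivial⟩)⟩
    by_cases hw : w = 0
    · subst hw
      refine le_of_eq (Eq.symm (Finset.sum_eq_zero fun i _ => ?_))
      have h1 : ∀ c : X → ℝ, dd c x (0 : TangentSpace 𝓘(ℝ, ES d) x) = 0 := fun c =>
        map_zero (mfderiv 𝓘(ℝ, ES d) 𝓘(ℝ, ℝ) c x)
      rw [map_zero, h1, h1]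
      ring
    · exact (hpos w hw trivial).le

theorem tests_of_blowUp {J : End (ES d) X} {C : Set (Form (ES d) X 2)} (hC : IsTestClass C)
    {N : ℕ → Set X} {τ : ℕ → Form (ES d) X 2} (hN : ∀ i, ∀ z ∈ N i, SmallAll J (N i) z)
    (hτ : ∀ k, τ k ∈ ConeOf C)
    (hl : LowerBounded J (fun x v => v ≠ 0 ∧ ∀ i, x ∉ N i) τ)
    (hb : ∀ (x : X) (v : TangentSpace 𝓘(ℝ, ES d) x), v ≠ 0 → (∀ i, x ∉ N i) →
      Tendsto (fun k => qd (τ k) J x v) atTop atTop) :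
    ∃ T : Tests (ES d) X, T.Admissible J (ConeOf C) (NonzeroVectors (ES d) X) ∧
      ∀ z, Void J (T.Piece J (NonzeroVectors (ES d) X) z) := by
  obtain ⟨w, hw⟩ := hC.nonempty
  have hm : (0 : Form (ES d) X 2) ∈ ConeOf C := ⟨0, w, 0, le_rfl, hw, exact_zero, by simp⟩
  have h0 : ∀ (x : X) (v : TangentSpace 𝓘(ℝ, ES d) x), qd (0 : Form (ES d) X 2) J x v = 0 :=
    fun x v => rfl
  have hl0 : ∀ L : VSet (ES d) X, LowerBounded J L (fun _ : ℕ => (0 : Form (ES d) X 2)) :=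
    fun L => ⟨0, exact_zero.choose_spec.2.1, fun k x v _ => le_rfl⟩
  set T : Tests (ES d) X := ⟨fun _ => N, fun j => Nat.casesOn j (fun _ => 0) (fun _ => τ),
    fun _ _ => 0⟩ with hT
  have hoff : ∀ (j : ℕ) (x : X) (v : TangentSpace 𝓘(ℝ, ES d) x),
      T.Left J (NonzeroVectors (ES d) X) (j + 1) x v → v ≠ 0 ∧ ∀ i, x ∉ N i := by
    intro j x v h
    have hv : v ≠ 0 := left_sub h
    exact ⟨hv, fun i hi => h.2.1 i (removed_of_small hi hv (hN i x hi))⟩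
  refine ⟨T, ⟨fun j k => ?_, fun _ _ => hm, fun j => ?_, fun _ => hl0 _, ?_⟩,
    fun z => Void.empty _ ?_⟩
  · cases j with
    | zero => exact hm
    | succ j => exact hτ k
  · cases j with
    | zero => exact hl0 _
    | succ j =>
      obtain ⟨γ, h1, h2⟩ := hl
      exact ⟨γ, h1, fun k x v h => h2 k x v (hoff j x v h)⟩
  · intro j x v _ ε hε
    refine Eventually.of_forall fun k => ?_
    change -ε < qd (0 : Form (ES d) X 2) J x v
    rw [h0]
    linarith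
  · rintro x v ⟨h, -⟩
    obtain ⟨h1, h2⟩ := hoff 0 x v (h 1)
    exact (h 2).2.2.1 (hb x v h1 h2)

end Pool.Agent.N312.BUP
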