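import Pool.Agent.Y501.SY.MainT
import Pool.Agent.Y501.SY.FinalG

/-!
The compact space of unit tangent vectors in finitely many charts.
-/

set_option autoImplicit false

open Set Filter Topology MeasureTheory
open scoped Manifold ContDiff

noncomputable section

namespace Pool.Agent.N312.BU

open Pool.Agent.Y501.SY
open Pool.Agent.Y455.SY (Q A)

/-- finitely many closed balls in charts which cover the manifold -/
structure Atl (d : ℕ) (X : Type) [TopologicalSpace X] [ChartedSpace (E d) X] where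
  n : ℕ
  x : Fin n → X
  r : Fin n → ℝ
  sub : ∀ i, Metric.closedBall (chartAt (E d) (x i) (x i)) (r i) ⊆ (chartAt (E d) (x i)).target
  cov : ∀ y : X, ∃ i, y ∈ (chartAt (E d) (x i)).source ∧
    chartAt (E d) (x i) y ∈ Metric.closedBall (chartAt (E d) (x i) (x i)) (r i)

variable {d : ℕ} {X : Type} [TopologicalSpace X] [ChartedSpace (E d) X]

theorem exists_atl [CompactSpace X] : Nonempty (Atl d X) := by
  classical
  have h : ∀ z : X, ∃ r : ℝ, 0 < r ∧
      Metric.closedBall (chartAt (E d) z z) r ⊆ (chartAt (E d) z).target := fun z =>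
    Metric.nhds_basis_closedBall.mem_iff.1
      ((chartAt (E d) z).open_target.mem_nhds (mem_chart_target (E d) z))
  choose r hr hsub using h
  obtain ⟨t, -, ht⟩ := (isCompact_univ (X := X)).elim_nhds_subcover
    (fun z => (chartAt (E d) z).source ∩
      chartAt (E d) z ⁻¹' Metric.closedBall (chartAt (E d) z z) (r z))
    (fun z _ => Filter.inter_mem
      ((chartAt (E d) z).open_source.mem_nhds (mem_chart_source (E d) z))
      (((chartAt (E d) z).continuousAt (mem_chart_source (E d) z)).preimage_mem_nhds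
        (Metric.closedBall_mem_nhds _ (hr z))))
  refine ⟨⟨t.card, fun i => (t.equivFin.symm i : X), fun i => r (t.equivFin.symm i : X),
    fun i => hsub _, fun y => ?_⟩⟩
  obtain ⟨z, hz, hy⟩ := mem_iUnion₂.1 (ht (mem_univ y))
  refine ⟨t.equivFin ⟨z, hz⟩, ?_⟩
  rw [Equiv.symm_apply_apply]
  exact hy

variable (𝒜 : Atl d X)

/-- the compact space -/
abbrev SS : Type := Σ i : Fin 𝒜.n,
  ↥(Metric.closedBall (chartAt (E d) (𝒜.x i) (𝒜.x i)) (𝒜.r i) ×ˢ Metric.sphere (0 : E d) 1)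

instance instCompactFib (i : Fin 𝒜.n) :
    CompactSpace ↥(Metric.closedBall (chartAt (E d) (𝒜.x i) (𝒜.x i)) (𝒜.r i) ×ˢ
      Metric.sphere (0 : E d) 1) :=
  isCompact_iff_compactSpace.1 ((isCompact_closedBall _ _).prod (isCompact_sphere _ _))

instance instCompactSS : CompactSpace (SS 𝒜) := inferInstance

instance instT2SS : T2Space (SS 𝒜) := inferInstance

instance instMeasSS : MeasurableSpace (SS 𝒜) := borel _

instance instBorelSS : BorelSpace (SS 𝒜) := ⟨rfl⟩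

/-- the base point -/
def pr (s : SS 𝒜) : X := (chartAt (E d) (𝒜.x s.1)).symm s.2.1.1

/-- the tangent vector -/
def vc (s : SS 𝒜) : TangentSpace (𝓡 d) (pr 𝒜 s) := A (𝒜.x s.1) s.2.1.1 s.2.1.2

/-- the quadratic form of `σ` on unit vectors -/
def qf (σ : Form d X 2) (J : End d X) (s : SS 𝒜) : ℝ := Q σ J (𝒜.x s.1) s.2.1.1 s.2.1.2

theorem mem_target (s : SS 𝒜) : s.2.1.1 ∈ (chartAt (E d) (𝒜.x s.1)).target :=
  𝒜.sub s.1 s.2.2.1

theorem continuous_pr : Continuous (pr 𝒜) := by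
  refine continuous_sigma fun i => ?_
  rw [continuous_iff_continuousAt]
  intro p
  have h1 : ContinuousAt (chartAt (E d) (𝒜.x i)).symm p.1.1 :=
    (chartAt (E d) (𝒜.x i)).continuousAt_symm (𝒜.sub i p.2.1)
  have h2 : ContinuousAt (fun p : ↥(Metric.closedBall (chartAt (E d) (𝒜.x i) (𝒜.x i)) (𝒜.r i) ×ˢ
      Metric.sphere (0 : E d) 1) => p.1.1) p := by fun_prop
  exact ContinuousAt.comp (f := fun p : ↥(Metric.closedBall (chartAt (E d) (𝒜.x i) (𝒜.x i))
    (𝒜.r i) ×ˢ Metric.sphere (0 : E d) 1) => p.1.1) (x := p) h1 h2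

variable [IsManifold (𝓡 d) ∞ X]

theorem continuous_qf {σ : Form d X 2} (hσ : IsSmooth σ) {J : End d X}
    (hJ : IsAlmostComplex J) : Continuous (qf 𝒜 σ J) := by
  refine continuous_sigma fun i => ?_
  rw [continuous_iff_continuousAt]
  intro p
  have h1 := Pool.Agent.Y455.SY.Q_cont hσ hJ (𝒜.x i) (p := p.1.1) (v := p.1.2)
    (𝒜.sub i p.2.1)
  exact ContinuousAt.comp (f := fun p : ↥(Metric.closedBall (chartAt (E d) (𝒜.x i) (𝒜.x i))
    (𝒜.r i) ×ˢ Metric.sphere (0 : E d) 1) => p.1) (x := p)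
    (g := fun z : E d × E d => Q σ J (𝒜.x i) z.1 z.2) h1 continuousAt_subtype_val

theorem qf_eq (σ : Form d X 2) (J : End d X) (s : SS 𝒜) :
    qf 𝒜 σ J s = σ (pr 𝒜 s) ![vc 𝒜 s, J (pr 𝒜 s) (vc 𝒜 s)] :=
  Pool.Agent.Y455.SY.Q_eq σ J (𝒜.x s.1) (mem_target 𝒜 s) s.2.1.2

theorem vc_ne (s : SS 𝒜) : vc 𝒜 s ≠ 0 := by
  intro h
  have h1 := Pool.Agent.Y455.SY.BA (𝒜.x s.1) (mem_target 𝒜 s) s.2.1.2
  have h2 : A (𝒜.x s.1) s.2.1.1 s.2.1.2 = 0 := h
  rw [h2, map_zero] at h1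
  have h3 : ‖s.2.1.2‖ = 1 := mem_sphere_zero_iff_norm.1 s.2.2.2
  rw [← h1, norm_zero] at h3
  exact zero_ne_one h3

theorem tames_of_pos {σ : Form d X 2} {J : End d X} (h : ∀ s : SS 𝒜, 0 < qf 𝒜 σ J s) (y : X) :
    TamesAt σ J y := by
  obtain ⟨i, hy, hb⟩ := 𝒜.cov y
  have h1 : (chartAt (E d) (𝒜.x i)).symm (chartAt (E d) (𝒜.x i) y) = y :=
    (chartAt (E d) (𝒜.x i)).left_inv hy
  rw [← h1, Pool.Agent.Y455.SY.tames_iff σ J (𝒜.x i) ((chartAt (E d) (𝒜.x i)).map_source hy),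
    Pool.Agent.Y455.SY.pos_iff _ (fun s v => Pool.Agent.Y455.SY.Q_smul σ J (𝒜.x i) _ v s)]
  intro v hv
  exact h ⟨i, ⟨(chartAt (E d) (𝒜.x i) y, v), ⟨hb, hv⟩⟩⟩

end Pool.Agent.N312.BU
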