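import Pool.Agent.N312.BU.AC

/-!
Disintegration of a finite measure on a compact space.
-/

set_option autoImplicit false

open Set Filter Topology MeasureTheory ProbabilityTheory

noncomputable section

namespace Pool.Agent.N312.BU

variable {S β : Type} [TopologicalSpace S] [CompactSpace S] [T2Space S]
  [SecondCountableTopology S] [MeasurableSpace S] [BorelSpace S] [StandardBorelSpace S]
  [Nonempty S] [MeasurableSpace β]

theorem joint (μ : Measure S) [IsFiniteMeasure μ] (p : S → β) :
    (μ.map p) ⊗ₘ (condDistrib id p μ) = μ.map (fun s => (p s, s)) :=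
  compProd_map_condDistrib (X := p) (Y := id) (μ := μ) aemeasurable_id

theorem dis_mem {μ : Measure S} [IsFiniteMeasure μ] {p : S → β} (hp : Measurable p)
    {P : S → Prop} (h : ∀ᵐ s ∂μ, P s) :
    ∀ᵐ x ∂(μ.map p), ∀ᵐ s ∂(condDistrib id p μ x), P s := by
  have hm : Measurable fun s => (p s, s) := hp.prodMk measurable_id
  have h1 : ∀ᵐ q ∂(μ.map fun s => (p s, s)), P q.2 := by
    obtain ⟨t, ht, htm, ht0⟩ := exists_measurable_superset_of_null (ae_iff.1 h)
    have h2 : ∀ᵐ q ∂(μ.map fun s => (p s, s)), q.2 ∉ t := by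
      have hms : MeasurableSet {q : β × S | q.2 ∉ t} := measurable_snd htm.compl
      rw [ae_map_iff hm.aemeasurable hms]
      exact measure_eq_zero_iff_ae_notMem.1 ht0
    filter_upwards [h2] with q hq
    by_contra hP
    exact hq (ht hP)
  rw [← joint μ p] at h1
  exact Measure.ae_ae_of_ae_compProd h1

theorem dis_fib [MeasurableEq β] {μ : Measure S} [IsFiniteMeasure μ] {p : S → β}
    (hp : Measurable p) :
    ∀ᵐ x ∂(μ.map p), ∀ᵐ s ∂(condDistrib id p μ x), p s = x := by
  have hm : Measurable fun s => (p s, s) := hp.prodMk measurable_id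
  have h1 : ∀ᵐ q ∂(μ.map fun s => (p s, s)), p q.2 = q.1 := by
    have hms : MeasurableSet {q : β × S | p q.2 = q.1} :=
      measurableSet_eq_fun (hp.comp measurable_snd) measurable_fst
    rw [ae_map_iff hm.aemeasurable hms]
    exact Eventually.of_forall fun s => rfl
  rw [← joint μ p] at h1
  exact Measure.ae_ae_of_ae_compProd h1

theorem dis_int {μ : Measure S} [IsFiniteMeasure μ] {p : S → β} (hp : Measurable p) {F : S → ℝ}
    (hF : Continuous F) {M : Set β} (hM : MeasurableSet M)
    (h : ∀ B ⊆ M, MeasurableSet B → ∫ s in p ⁻¹' B, F s ∂μ = 0) :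
    ∀ᵐ x ∂(μ.map p), x ∈ M → ∫ s, F s ∂(condDistrib id p μ x) = 0 := by
  have hm : Measurable fun s => (p s, s) := hp.prodMk measurable_id
  have hFi : Integrable F μ := integrable_of_cont hF
  have hFi1 : Integrable (fun q : β × S => F q.2) (μ.map fun s => (p s, s)) :=
    (integrable_map_measure (g := fun q : β × S => F q.2)
      (hF.measurable.comp measurable_snd).aestronglyMeasurable hm.aemeasurable).2 hFi
  have hFi2 : Integrable (fun q : β × S => F q.2) ((μ.map p) ⊗ₘ (condDistrib id p μ)) := by
    rw [joint]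
    exact hFi1
  have hgi : Integrable (fun x => ∫ s, F s ∂(condDistrib id p μ x)) (μ.map p) :=
    MeasureTheory.Integrable.integral_condDistrib_map (Y := id) (X := p)
      (f := fun q : β × S => F q.2) aemeasurable_id hFi1
  have h1 : ∀ B, MeasurableSet B → ∫ x in B, (∫ s, F s ∂(condDistrib id p μ x)) ∂(μ.map p) =
      ∫ s in p ⁻¹' B, F s ∂μ := by
    intro B hB
    have h2 := Measure.setIntegral_compProd (μ := μ.map p) (κ := condDistrib id p μ)
      (f := fun q : β × S => F q.2) hB MeasurableSet.univ hFi2.integrableOn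
    simp only [Measure.restrict_univ] at h2
    rw [← h2, joint, setIntegral_map (f := fun q : β × S => F q.2) (hB.prod MeasurableSet.univ)
      (hF.measurable.comp measurable_snd).aestronglyMeasurable hm.aemeasurable]
    have h3 : (fun s => (p s, s)) ⁻¹' (B ×ˢ (univ : Set S)) = p ⁻¹' B := by
      ext s
      simp
    rw [h3]
  have h4 := (hgi.restrict (s := M)).ae_eq_zero_of_forall_setIntegral_eq_zero (by
    intro B hB _
    rw [Measure.restrict_restrict hB, h1 _ (hB.inter hM)]
    exact h _ inter_subset_right (hB.inter hM))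
  exact (ae_restrict_iff' hM).1 h4

theorem dis_open {μ : Measure S} [IsFiniteMeasure μ] {p : S → β} (hp : Measurable p) {U : Set S}
    (hU : IsOpen U) : ∀ᵐ s ∂μ, s ∈ U → condDistrib id p μ (p s) U ≠ 0 := by
  have hm : Measurable fun s => (p s, s) := hp.prodMk measurable_id
  have h0 : Measurable fun x => condDistrib id p μ x U :=
    (condDistrib id p μ).measurable_coe hU.measurableSet
  have hms : MeasurableSet {q : β × S | ¬ (q.2 ∈ U ∧ condDistrib id p μ q.1 U = 0)} :=
    ((measurable_snd hU.measurableSet).inter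
      ((h0.comp measurable_fst) (measurableSet_singleton 0))).compl
  have h1 : ∀ᵐ q ∂(μ.map fun s => (p s, s)), ¬ (q.2 ∈ U ∧ condDistrib id p μ q.1 U = 0) := by
    rw [← joint μ p, Measure.ae_compProd_iff hms]
    refine Eventually.of_forall fun x => ?_
    by_cases hx : condDistrib id p μ x U = 0
    · filter_upwards [measure_eq_zero_iff_ae_notMem.1 hx] with s hs h
      exact hs h.1
    · exact Eventually.of_forall fun s h => hx h.2
  have h2 := ae_of_ae_map hm.aemeasurable h1
  filter_upwards [h2] with s hs hsU h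
  exact hs ⟨hsU, h⟩

/-- almost every point lies in the support of its conditional measure -/
theorem dis_supp (μ : Measure S) [IsFiniteMeasure μ] {p : S → β} (hp : Measurable p) :
    ∀ᵐ s ∂μ, ∀ U : Set S, IsOpen U → s ∈ U → condDistrib id p μ (p s) U ≠ 0 := by
  have h1 : ∀ᵐ s ∂μ, ∀ U ∈ TopologicalSpace.countableBasis S, s ∈ U →
      condDistrib id p μ (p s) U ≠ 0 := by
    rw [ae_ball_iff (TopologicalSpace.countable_countableBasis S)]
    intro U hU
    exact dis_open hp (TopologicalSpace.isOpen_of_mem_countableBasis hU)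
  filter_upwards [h1] with s hs U hU hsU h
  obtain ⟨V, hV, hsV, hVU⟩ :=
    (TopologicalSpace.isBasis_countableBasis S).exists_subset_of_mem_open hsU hU
  exact hs V hV hsV (measure_mono_null hVU h)

/-- uniform version of `dis_int` -/
theorem dis_family {μ : Measure S} [IsFiniteMeasure μ] {p : S → β} (hp : Measurable p)
    (𝓕 : Set C(S, ℝ)) (N : Set β)
    (h : ∀ F ∈ 𝓕, ∃ M : Set β, MeasurableSet M ∧ N ⊆ M ∧
      ∀ B ⊆ M, MeasurableSet B → ∫ s in p ⁻¹' B, F s ∂μ = 0) :
    ∀ᵐ x ∂(μ.map p), x ∈ N → ∀ F ∈ 𝓕, ∫ s, F s ∂(condDistrib id p μ x) = 0 := by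
  have _ : TopologicalSpace.MetrizableSpace S :=
    TopologicalSpace.metrizableSpace_of_t3_secondCountable S
  obtain ⟨t, htF, htc, hFt⟩ :=
    (TopologicalSpace.IsSeparable.of_separableSpace 𝓕).exists_countable_dense_subset
  have h1 : ∀ᵐ x ∂(μ.map p), ∀ F ∈ t, x ∈ N → ∫ s, F s ∂(condDistrib id p μ x) = 0 := by
    rw [ae_ball_iff htc]
    intro F hF
    obtain ⟨M, hM, hNM, hB⟩ := h F (htF hF)
    filter_upwards [dis_int hp F.continuous hM hB] with x hx hxN
    exact hx (hNM hxN)
  filter_upwards [h1] with x hx hxN F hF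
  have hcl : IsClosed {G : C(S, ℝ) | ∫ s, G s ∂(condDistrib id p μ x) = 0} := by
    refine isClosed_eq ?_ continuous_const
    rw [Metric.continuous_iff]
    intro G ε hε
    refine ⟨ε, hε, fun G' hG' => ?_⟩
    rw [Real.dist_eq, ← integral_sub (integrable_of_cont G'.continuous)
      (integrable_of_cont G.continuous)]
    have h2 : ‖∫ s, (G' s - G s) ∂(condDistrib id p μ x)‖ ≤ dist G' G := by
      refine (norm_integral_le_of_norm_le_const (C := dist G' G)
        (Eventually.of_forall fun s => ?_)).trans ?_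
      · rw [← dist_eq_norm]
        exact ContinuousMap.dist_apply_le_dist s
      · rw [probReal_univ, mul_one]
    exact lt_of_le_of_lt h2 hG'
  exact closure_minimal (fun G hG => hx G hG hxN) hcl (hFt hF)

end Pool.Agent.N312.BU
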