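import Pool.Agent.N312.BU.Rem
import Pool.Agent.Y658.SY.Prod

/-!
Conditioning a measure on the unit tangent vectors, which annihilates the exact forms, on the
fibre of the functions with differential zero on the vectors carrying the measure.
-/

set_option autoImplicit false

open Set Filter Topology MeasureTheory ProbabilityTheory
open scoped Manifold ContDiff

noncomputable section

namespace Pool.Agent.N312.BU

open Pool.Agent.Y501.SY

theorem dyn {S β : Type} [MeasurableSpace S] {m : MeasurableSpace β} {μ : Measure S}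
    {F : S → ℝ} (hF : Integrable F μ) {p : S → β} (hp : Measurable p) {g : Set (Set β)}
    (hg : m = MeasurableSpace.generateFrom g) (hpi : IsPiSystem g)
    (h0 : ∫ s, F s ∂μ = 0) (hb : ∀ B ∈ g, ∫ s in p ⁻¹' B, F s ∂μ = 0) :
    ∀ B : Set β, MeasurableSet B → ∫ s in p ⁻¹' B, F s ∂μ = 0 := by
  refine MeasurableSpace.induction_on_inter
    (C := fun B _ => ∫ s in p ⁻¹' B, F s ∂μ = 0) hg hpi ?_ ?_ ?_ ?_
  · simp
  · exact hb
  · intro B hB h
    rw [preimage_compl, setIntegral_compl (hp hB) hF, h0, h, sub_zero]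
  · intro f hd hf h
    rw [preimage_iUnion, integral_iUnion (fun i => hp (hf i)) (fun i j hij =>
      (hd hij).preimage p) hF.integrableOn]
    simp [h]

variable {d : ℕ} {X : Type} [TopologicalSpace X] [ChartedSpace (E d) X]

/-- smooth exact two-forms -/
def Ex (η : Form d X 2) : Prop := ∃ α : Form d X 1, IsSmooth α ∧ IsSmooth η ∧ IsD α η

theorem Ex.smul {η : Form d X 2} (h : Ex η) (t : ℝ) : Ex (t • η) := by
  obtain ⟨α, h1, h2, h3⟩ := h
  exact ⟨t • α, h1.smul t, h2.smul t, IsD.smul h3 t⟩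

variable [IsManifold (𝓡 d) ∞ X]

theorem Ex.of_pair {α : Form d X 1} {η : Form d X 2} (h : Pair α η) : Ex η := by
  obtain ⟨h1, h2, h3, -⟩ := h.props Pool.Agent.Y484.SY.t_GEN
  exact ⟨α, h1, h2, h3⟩

/-- product rule -/
theorem Ex.smulFun {η : Form d X 2} (h : Ex η) {u : X → ℝ} (hu : SmoothFun (d := d) u) :
    ∃ (α : Form d X 1) (η' : Form d X 2), Ex η' ∧ ∀ (x : X) (v w : TangentSpace (𝓡 d) x),
      η' x ![v, w] = u x * η x ![v, w] + (dd u x v * α x ![w] - dd u x w * α x ![v]) := by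
  obtain ⟨α, h1, h2, h3⟩ := h
  obtain ⟨k1, k2, k3, -, k4⟩ := Pool.Agent.Y658.SY.t_PROD d X u α η hu h1 h2 h3
  refine ⟨α, _, ⟨_, k1, k2, k3⟩, fun x v w => ?_⟩
  rw [k4]
  ring

variable [CompactSpace X] [T2Space X]

omit [CompactSpace X] [T2Space X] in
/-- restriction to a closed set of values of an invariant function -/
theorem restr_closed (𝒜 : Atl d X) {J : End d X} (hJ : IsAlmostComplex J)
    (μ : Measure (SS 𝒜)) [IsFiniteMeasure μ]
    (hex : ∀ η : Form d X 2, Ex η → ∫ s, qf 𝒜 η J s ∂μ = 0)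
    {u : X → ℝ} (hu : SmoothFun (d := d) u)
    (hud : ∀ᵐ s ∂μ, dd (d := d) u (pr 𝒜 s) (vc 𝒜 s) = 0 ∧
      dd (d := d) u (pr 𝒜 s) (J (pr 𝒜 s) (vc 𝒜 s)) = 0)
    {C : Set ℝ} (hC : IsClosed C) {η : Form d X 2} (hp : Ex η) :
    ∫ s in (fun s => u (pr 𝒜 s)) ⁻¹' C, qf 𝒜 η J s ∂μ = 0 := by
  obtain ⟨ψ, hψ, hψr, -, hψ1⟩ := exists_contMDiff_support_eq_eq_one_iff 𝓘(ℝ, ℝ) (n := (⊤ : ℕ∞))
    (s := univ) (t := C) isOpen_univ hC (subset_univ _)
  have hψs : ContDiff ℝ ∞ ψ := hψ.contDiff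
  have hψ0 : ∀ x, 0 ≤ ψ x := fun x => (hψr (mem_range_self x)).1
  have hψle : ∀ x, ψ x ≤ 1 := fun x => (hψr (mem_range_self x)).2
  have hηc : Continuous (qf 𝒜 η J) := continuous_qf 𝒜 hp.choose_spec.2.1 hJ
  have hup : Continuous fun s : SS 𝒜 => u (pr 𝒜 s) := hu.continuous.comp (continuous_pr 𝒜)
  have hA : MeasurableSet ((fun s : SS 𝒜 => u (pr 𝒜 s)) ⁻¹' C) := hup.measurable hC.measurableSet
  have key : ∀ n : ℕ, ∫ s, ψ (u (pr 𝒜 s)) ^ n * qf 𝒜 η J s ∂μ = 0 := by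
    intro n
    have hn : ContDiff ℝ ∞ fun t => ψ t ^ n := hψs.pow n
    obtain ⟨α', η', hp', he⟩ := hp.smulFun (SmoothFun.comp1 hn hu)
    rw [← hex η' hp']
    refine integral_congr_ae ?_
    filter_upwards [hud] with s hs
    rw [qf_eq 𝒜 η', he, dd_comp1 hn hu, dd_comp1 hn hu, hs.1, hs.2, qf_eq]
    ring
  have hlim : Tendsto (fun n : ℕ => ∫ s, ψ (u (pr 𝒜 s)) ^ n * qf 𝒜 η J s ∂μ) atTop
      (𝓝 (∫ s, ((fun s => u (pr 𝒜 s)) ⁻¹' C).indicator (qf 𝒜 η J) s ∂μ)) := by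
    refine tendsto_integral_of_dominated_convergence (fun s => |qf 𝒜 η J s|) ?_
      (integrable_of_cont hηc.abs) ?_ ?_
    · intro n
      exact (((hψs.continuous.comp hup).pow n).mul hηc).aestronglyMeasurable
    · intro n
      refine Eventually.of_forall fun s => ?_
      rw [Real.norm_eq_abs, abs_mul, abs_of_nonneg (pow_nonneg (hψ0 _) n)]
      exact mul_le_of_le_one_left (abs_nonneg _) (pow_le_one₀ (hψ0 _) (hψle _))
    · refine Eventually.of_forall fun s => ?_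
      by_cases hs : s ∈ (fun s : SS 𝒜 => u (pr 𝒜 s)) ⁻¹' C
      · rw [indicator_of_mem hs]
        have h1 : ψ (u (pr 𝒜 s)) = 1 := (hψ1 _).1 hs
        simp only [h1, one_pow, one_mul]
        exact tendsto_const_nhds
      · rw [indicator_of_notMem hs]
        have h1 : ψ (u (pr 𝒜 s)) < 1 := lt_of_le_of_ne (hψle _) fun h => hs ((hψ1 _).2 h)
        have h2 := (tendsto_pow_atTop_nhds_zero_of_lt_one (hψ0 _) h1).mul_const (qf 𝒜 η J s)
        rwa [zero_mul] at h2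
  rw [integral_indicator hA] at hlim
  simp only [key] at hlim
  exact tendsto_nhds_unique hlim tendsto_const_nhds

theorem restr_borel (𝒜 : Atl d X) {J : End d X} (hJ : IsAlmostComplex J)
    (μ : Measure (SS 𝒜)) [IsFiniteMeasure μ]
    (hex : ∀ η : Form d X 2, Ex η → ∫ s, qf 𝒜 η J s ∂μ = 0)
    {u : X → ℝ} (hu : SmoothFun (d := d) u)
    (hud : ∀ᵐ s ∂μ, dd (d := d) u (pr 𝒜 s) (vc 𝒜 s) = 0 ∧
      dd (d := d) u (pr 𝒜 s) (J (pr 𝒜 s) (vc 𝒜 s)) = 0)
    {η : Form d X 2} (hp : Ex η) {C : Set ℝ} (hC : MeasurableSet C) :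
    ∫ s in (fun s => u (pr 𝒜 s)) ⁻¹' C, qf 𝒜 η J s ∂μ = 0 := by
  have hηc : Continuous (qf 𝒜 η J) := continuous_qf 𝒜 hp.choose_spec.2.1 hJ
  have hup : Continuous fun s : SS 𝒜 => u (pr 𝒜 s) := hu.continuous.comp (continuous_pr 𝒜)
  refine dyn (integrable_of_cont hηc) hup.measurable
    (g := {C : Set ℝ | IsClosed C}) ?_ isPiSystem_isClosed (hex η hp) ?_ C hC
  · rw [BorelSpace.measurable_eq (α := ℝ), borel_eq_generateFrom_isClosed]
  · intro B hB
    exact restr_closed 𝒜 hJ μ hex hu hud hB hp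

theorem restr_box (𝒜 : Atl d X) {J : End d X} (hJ : IsAlmostComplex J)
    (μ : Measure (SS 𝒜)) [IsFiniteMeasure μ]
    (hex : ∀ η : Form d X 2, Ex η → ∫ s, qf 𝒜 η J s ∂μ = 0)
    {u : ℕ → X → ℝ} (hu : ∀ i, SmoothFun (d := d) (u i))
    (hud : ∀ i, ∀ᵐ s ∂μ, dd (d := d) (u i) (pr 𝒜 s) (vc 𝒜 s) = 0 ∧
      dd (d := d) (u i) (pr 𝒜 s) (J (pr 𝒜 s) (vc 𝒜 s)) = 0)
    {C : ℕ → Set ℝ} (hC : ∀ i, MeasurableSet (C i)) (t : Finset ℕ) :
    ∀ η : Form d X 2, Ex η →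
      ∫ s in {s | ∀ i ∈ t, u i (pr 𝒜 s) ∈ C i}, qf 𝒜 η J s ∂μ = 0 := by
  classical
  have hm : ∀ t : Finset ℕ, MeasurableSet {s : SS 𝒜 | ∀ i ∈ t, u i (pr 𝒜 s) ∈ C i} := by
    intro t
    have h1 : {s : SS 𝒜 | ∀ i ∈ t, u i (pr 𝒜 s) ∈ C i} =
        ⋂ i ∈ t, (fun s => u i (pr 𝒜 s)) ⁻¹' (C i) := by
      ext s
      simp
    rw [h1]
    exact Finset.measurableSet_biInter _ fun i _ =>
      ((hu i).continuous.comp (continuous_pr 𝒜)).measurable (hC i)
  induction t using Finset.induction_on with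
  | empty =>
    intro η hp
    simp only [Finset.notMem_empty, false_imp_iff, implies_true, ofPred_true,
      Measure.restrict_univ]
    exact hex η hp
  | insert j t hj ih =>
    intro η hp
    have h1 : {s : SS 𝒜 | ∀ i ∈ insert j t, u i (pr 𝒜 s) ∈ C i} =
        (fun s => u j (pr 𝒜 s)) ⁻¹' (C j) ∩ {s : SS 𝒜 | ∀ i ∈ t, u i (pr 𝒜 s) ∈ C i} := by
      ext s
      simp
    have h2 := restr_borel 𝒜 hJ (μ.restrict {s : SS 𝒜 | ∀ i ∈ t, u i (pr 𝒜 s) ∈ C i}) ih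
      (hu j) (ae_restrict_of_ae (hud j)) hp (hC j)
    have hmj : MeasurableSet ((fun s : SS 𝒜 => u j (pr 𝒜 s)) ⁻¹' (C j)) :=
      ((hu j).continuous.comp (continuous_pr 𝒜)).measurable (hC j)
    rw [Measure.restrict_restrict hmj] at h2
    rw [h1]
    exact h2

theorem restr_all (𝒜 : Atl d X) {J : End d X} (hJ : IsAlmostComplex J)
    (μ : Measure (SS 𝒜)) [IsFiniteMeasure μ]
    (hex : ∀ η : Form d X 2, Ex η → ∫ s, qf 𝒜 η J s ∂μ = 0)
    {u : ℕ → X → ℝ} (hu : ∀ i, SmoothFun (d := d) (u i))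
    (hud : ∀ i, ∀ᵐ s ∂μ, dd (d := d) (u i) (pr 𝒜 s) (vc 𝒜 s) = 0 ∧
      dd (d := d) (u i) (pr 𝒜 s) (J (pr 𝒜 s) (vc 𝒜 s)) = 0)
    {η : Form d X 2} (hp : Ex η) {B : Set (ℕ → ℝ)}
    (hB : MeasurableSet B) :
    ∫ s in (fun s i => u i (pr 𝒜 s)) ⁻¹' B, qf 𝒜 η J s ∂μ = 0 := by
  have hηc : Continuous (qf 𝒜 η J) := continuous_qf 𝒜 hp.choose_spec.2.1 hJ
  have hq : Measurable fun (s : SS 𝒜) (i : ℕ) => u i (pr 𝒜 s) :=
    measurable_pi_lambda _ fun i => ((hu i).continuous.comp (continuous_pr 𝒜)).measurable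
  refine dyn (integrable_of_cont hηc) hq
    (g := squareCylinders fun _ : ℕ => {s : Set ℝ | MeasurableSet s})
    generateFrom_squareCylinders.symm
    (isPiSystem_squareCylinders (fun i => MeasurableSpace.isPiSystem_measurableSet)
      (fun i => (MeasurableSet.univ : MeasurableSet (univ : Set ℝ)))) (hex η hp) ?_ B hB
  rintro _ ⟨t, C, hC, rfl⟩
  have hC' : ∀ i, MeasurableSet (C i) := fun i => hC i (mem_univ i)
  have h1 : (fun (s : SS 𝒜) (i : ℕ) => u i (pr 𝒜 s)) ⁻¹' ((t : Set ℕ).pi C) =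
      {s | ∀ i ∈ t, u i (pr 𝒜 s) ∈ C i} := by
    ext s
    simp [Set.mem_pi]
  rw [h1]
  exact restr_box 𝒜 hJ μ hex hu hud hC' t η hp

/-- `u` is smooth and has differential zero on the vectors in `L` -/
def Inv (L : ∀ x : X, TangentSpace (𝓡 d) x → Prop) (u : X → ℝ) : Prop :=
  SmoothFun (d := d) u ∧ ∀ (x : X) (v : TangentSpace (𝓡 d) x), L x v → dd u x v = 0

/-- the leaf through `z` -/
def leaf (L : ∀ x : X, TangentSpace (𝓡 d) x → Prop) (z : X) : Set X :=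
  {x | (∃ v, L x v) ∧ ∀ u : X → ℝ, Inv L u → u x = u z}

theorem exists_leaf (𝒜 : Atl d X) {J : End d X} (hJ : IsAlmostComplex J)
    (μ : Measure (SS 𝒜)) [IsProbabilityMeasure μ]
    (hex : ∀ η : Form d X 2, Ex η → ∫ s, qf 𝒜 η J s ∂μ = 0)
    (L : ∀ x : X, TangentSpace (𝓡 d) x → Prop) (hLJ : ∀ x v, L x v → L x (J x v))
    (hL : ∀ᵐ s ∂μ, L (pr 𝒜 s) (vc 𝒜 s)) :
    ∃ μ' : Measure (SS 𝒜), IsProbabilityMeasure μ' ∧
      (∀ η : Form d X 2, Ex η → ∫ s, qf 𝒜 η J s ∂μ' = 0) ∧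
      (∀ᵐ s ∂μ', L (pr 𝒜 s) (vc 𝒜 s)) ∧ ∃ z, ∀ᵐ s ∂μ', pr 𝒜 s ∈ leaf L z := by
  classical
  have hS : Nonempty (SS 𝒜) := by
    by_contra h
    rw [not_nonempty_iff] at h
    have h1 : μ univ = 1 := measure_univ
    rw [univ_eq_empty_iff.2 h, measure_empty] at h1
    exact zero_ne_one h1
  have _ : SecondCountableTopology X := ChartedSpace.secondCountable_of_sigmaCompact (E d) X
  have _ : TopologicalSpace.MetrizableSpace X :=
    TopologicalSpace.metrizableSpace_of_t3_secondCountable X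
  -- a dense sequence of invariant functions
  obtain ⟨t, htF, htc, hFt⟩ := (TopologicalSpace.IsSeparable.of_separableSpace
    {g : C(X, ℝ) | Inv (d := d) L g}).exists_countable_dense_subset
  have h0 : Inv (d := d) L (fun _ : X => (0 : ℝ)) := ⟨contMDiff_const, fun x v _ => by
    unfold dd
    rw [mfderiv_const]; rfl⟩
  obtain ⟨u, hu⟩ : ∃ u : ℕ → C(X, ℝ), insert (0 : C(X, ℝ)) t = range u :=
    (htc.insert 0).exists_eq_range ⟨0, mem_insert _ _⟩
  have huI : ∀ i, Inv (d := d) L (u i) := by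
    intro i
    have h1 : u i ∈ insert (0 : C(X, ℝ)) t := by
      rw [hu]
      exact mem_range_self i
    rcases h1 with h1 | h1
    · rw [h1]
      exact h0
    · exact htF h1
  have hdense : ∀ x z : X, (∀ i, u i x = u i z) → ∀ g : X → ℝ, Inv (d := d) L g → g x = g z := by
    intro x z hxz g hg
    have hcl : IsClosed {f : C(X, ℝ) | f x = f z} :=
      isClosed_eq (continuous_eval_const x) (continuous_eval_const z)
    have h1 : t ⊆ {f : C(X, ℝ) | f x = f z} := by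
      intro f hf
      have h2 : f ∈ range u := by
        rw [← hu]
        exact mem_insert_of_mem _ hf
      obtain ⟨i, rfl⟩ := h2
      exact hxz i
    have h2 : (⟨g, hg.1.continuous⟩ : C(X, ℝ)) ∈ {g : C(X, ℝ) | Inv (d := d) L g} := hg
    exact closure_minimal h1 hcl (hFt h2)
  set q : SS 𝒜 → ℕ → ℝ := fun s i => u i (pr 𝒜 s) with hq
  have hqm : Measurable q :=
    measurable_pi_lambda _ fun i => ((u i).continuous.comp (continuous_pr 𝒜)).measurable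
  have hud : ∀ i, ∀ᵐ s ∂μ, dd (d := d) (u i) (pr 𝒜 s) (vc 𝒜 s) = 0 ∧
      dd (d := d) (u i) (pr 𝒜 s) (J (pr 𝒜 s) (vc 𝒜 s)) = 0 := by
    intro i
    filter_upwards [hL] with s hs
    exact ⟨(huI i).2 _ _ hs, (huI i).2 _ _ (hLJ _ _ hs)⟩
  have h1 := dis_mem (p := q) hqm hL
  have h2 := dis_fib (μ := μ) (p := q) hqm
  have h3 := dis_family (μ := μ) (p := q) hqm
    {F : C(SS 𝒜, ℝ) | ∃ η : Form d X 2, Ex η ∧ ∀ s, F s = qf 𝒜 η J s}
    univ (by
      rintro F ⟨η, hp, hF⟩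
      refine ⟨univ, MeasurableSet.univ, subset_rfl, fun B _ hB => ?_⟩
      rw [← restr_all 𝒜 hJ μ hex (fun i => (huI i).1) hud hp hB]
      exact integral_congr_ae (Eventually.of_forall fun s => hF s))
  have hpm : IsProbabilityMeasure (μ.map q) := Measure.isProbabilityMeasure_map hqm.aemeasurable
  obtain ⟨y, k1, k2, k3⟩ := (h1.and (h2.and h3)).exists
  refine ⟨condDistrib id q μ y, inferInstance, ?_, k1, ?_⟩
  · intro η hp
    exact k3 (mem_univ y) ⟨qf 𝒜 η J, continuous_qf 𝒜 hp.choose_spec.2.1 hJ⟩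
      ⟨η, hp, fun s => rfl⟩
  · obtain ⟨s₀, hs₀⟩ := k2.exists
    refine ⟨pr 𝒜 s₀, ?_⟩
    filter_upwards [k1, k2] with s g1 g2
    refine ⟨⟨_, g1⟩, fun g hg => hdense _ _ (fun i => ?_) g hg⟩
    have h4 : q s = q s₀ := g2.trans hs₀.symm
    exact congrFun h4 i

end Pool.Agent.N312.BU
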