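import Pool.Agent.N312.BU.Null

/-!
A finite measure on the unit tangent vectors which annihilates the exact forms is carried, over
the set where a smooth function has values in a null set of the line, by the vectors in the
complex tangencies of the level sets.
-/

set_option autoImplicit false

open Set Filter Topology MeasureTheory
open scoped Manifold ContDiff

noncomputable section

namespace Pool.Agent.N312.BU

open Pool.Agent.Y501.SY
open Pool.Agent.Y455.SY (Q A AB)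

variable {d : ℕ} {X : Type} [TopologicalSpace X] [ChartedSpace (E d) X]
  [IsManifold (𝓡 d) ∞ X]

/-- a smooth function with given differential at a point -/
theorem exists_fun [T2Space X] (z : X) (ℓ : TangentSpace (𝓡 d) z →L[ℝ] ℝ) :
    ∃ b : X → ℝ, SmoothFun (d := d) b ∧ ∀ v : TangentSpace (𝓡 d) z, dd b z v = ℓ v := by
  let c := chartAt (E d) z
  have hz : z ∈ c.source := mem_chart_source (E d) z
  have hcd : c.MDifferentiable (𝓡 d) (𝓡 d) := mdifferentiable_chart (I := 𝓡 d) z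
  let A : TangentSpace (𝓡 d) z ≃L[ℝ] E d := hcd.mfderiv hz
  have hA : ∀ v, A v = mfderiv (𝓡 d) (𝓡 d) c z v := fun v => rfl
  let L : E d →L[ℝ] ℝ := ℓ.comp (A.symm : E d →L[ℝ] TangentSpace (𝓡 d) z)
  have hLv : ∀ v, L (A v) = ℓ v := by
    intro v
    change ℓ (A.symm (A v)) = ℓ v
    rw [A.symm_apply_apply]
  obtain ⟨b⟩ : Nonempty (SmoothBumpFunction (𝓡 d) z) := inferInstance
  let F : X → E d := fun x => b x • c x
  have hF : ContMDiff (𝓡 d) 𝓘(ℝ, E d) ∞ F := b.contMDiff_smul (contMDiffOn_chart (I := 𝓡 d))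
  have hFc : F =ᶠ[𝓝 z] c := by
    filter_upwards [b.eventuallyEq_one] with x hx
    change b x • c x = c x
    rw [hx]
    exact one_smul ℝ (c x)
  have hcdz : MDifferentiableAt (𝓡 d) 𝓘(ℝ, E d) c z := hcd.mdifferentiableAt hz
  refine ⟨fun x => L (F x), L.contDiff.contMDiff.comp hF, fun v => ?_⟩
  have e1 : (fun x => L (F x)) =ᶠ[𝓝 z] L ∘ c := by
    filter_upwards [hFc] with x hx
    change L (F x) = L (c x)
    rw [hx]
  unfold dd
  rw [e1.mfderiv_eq, mfderiv_comp z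
    (L.contDiff.contMDiff.mdifferentiableAt (n := 1) one_ne_zero) hcdz,
    mfderiv_eq_fderiv, ContinuousLinearMap.fderiv]
  exact hLv v

/-- the square norm of the restriction of `dc` to the complex line of a unit vector -/
def lf (𝒜 : Atl d X) (c : X → ℝ) (J : End d X) (s : SS 𝒜) : ℝ :=
  (dd c (pr 𝒜 s) (vc 𝒜 s)) ^ 2 + (dd c (pr 𝒜 s) (J (pr 𝒜 s) (vc 𝒜 s))) ^ 2

omit [IsManifold (𝓡 d) ∞ X] in
theorem lf_nonneg (𝒜 : Atl d X) (c : X → ℝ) (J : End d X) (s : SS 𝒜) : 0 ≤ lf 𝒜 c J s :=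
  add_nonneg (sq_nonneg _) (sq_nonneg _)

theorem continuous_lf (𝒜 : Atl d X) {c : X → ℝ} (hc : SmoothFun (d := d) c) {J : End d X}
    (hJ : IsAlmostComplex J) : Continuous (lf 𝒜 c J) := by
  refine continuous_sigma fun i => ?_
  rw [continuous_iff_continuousAt]
  intro p
  have hpt : p.1.1 ∈ (chartAt (E d) (𝒜.x i)).target := 𝒜.sub i p.2.1
  have hcs : ContDiffOn ℝ ∞ (c ∘ (chartAt (E d) (𝒜.x i)).symm) (chartAt (E d) (𝒜.x i)).target := by
    rw [← contMDiffOn_iff_contDiffOn]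
    exact ContMDiff.comp_contMDiffOn hc contMDiffOn_chart_symm
  have hL : ∀ q ∈ (chartAt (E d) (𝒜.x i)).target, ∀ v : E d, dd (d := d) c ((chartAt (E d) (𝒜.x i)).symm q) (A (𝒜.x i) q v) =
      fderiv ℝ (c ∘ (chartAt (E d) (𝒜.x i)).symm) q v := by
    intro q hq v
    have h1 : MDifferentiableAt (𝓡 d) (𝓡 d) (chartAt (E d) (𝒜.x i)).symm q :=
      ((contMDiffOn_chart_symm (I := 𝓡 d) (n := ∞) (x := 𝒜.x i)).contMDiffAt
        ((chartAt (E d) (𝒜.x i)).open_target.mem_nhds hq)).mdifferentiableAt (by simp)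
    have h2 : MDifferentiableAt (𝓡 d) 𝓘(ℝ, ℝ) c ((chartAt (E d) (𝒜.x i)).symm q) := hc.mdiff _
    rw [← mfderiv_eq_fderiv, mfderiv_comp q h2 h1]
    rfl
  have hcontL : ContinuousAt (fderiv ℝ (c ∘ (chartAt (E d) (𝒜.x i)).symm)) p.1.1 :=
    (hcs.continuousOn_fderiv_of_isOpen (chartAt (E d) (𝒜.x i)).open_target (by simp)).continuousAt
      ((chartAt (E d) (𝒜.x i)).open_target.mem_nhds hpt)
  have hcontJ : ContinuousAt (inChart J (𝒜.x i)) p.1.1 :=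
    (hJ.cont (𝒜.x i)).continuousAt ((chartAt (E d) (𝒜.x i)).open_target.mem_nhds hpt)
  have hf1 : ContinuousAt (fun z : ↥(Metric.closedBall (chartAt (E d) (𝒜.x i) (𝒜.x i)) (𝒜.r i) ×ˢ
      Metric.sphere (0 : E d) 1) => z.1.1) p := by fun_prop
  have hf2 : ContinuousAt (fun z : ↥(Metric.closedBall (chartAt (E d) (𝒜.x i) (𝒜.x i)) (𝒜.r i) ×ˢ
      Metric.sphere (0 : E d) 1) => z.1.2) p := by fun_prop
  have h3 : ContinuousAt (fun z : ↥(Metric.closedBall (chartAt (E d) (𝒜.x i) (𝒜.x i)) (𝒜.r i) ×ˢ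
      Metric.sphere (0 : E d) 1) => fderiv ℝ (c ∘ (chartAt (E d) (𝒜.x i)).symm) z.1.1) p :=
    ContinuousAt.comp (f := fun z : ↥(Metric.closedBall (chartAt (E d) (𝒜.x i) (𝒜.x i)) (𝒜.r i) ×ˢ
      Metric.sphere (0 : E d) 1) => z.1.1) (x := p) hcontL hf1
  have h4 : ContinuousAt (fun z : ↥(Metric.closedBall (chartAt (E d) (𝒜.x i) (𝒜.x i)) (𝒜.r i) ×ˢ
      Metric.sphere (0 : E d) 1) => inChart J (𝒜.x i) z.1.1) p :=
    ContinuousAt.comp (f := fun z : ↥(Metric.closedBall (chartAt (E d) (𝒜.x i) (𝒜.x i)) (𝒜.r i) ×ˢ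
      Metric.sphere (0 : E d) 1) => z.1.1) (x := p) hcontJ hf1
  have h5 := ((h3.clm_apply hf2).pow 2).add ((h3.clm_apply (h4.clm_apply hf2)).pow 2)
  refine h5.congr (Eventually.of_forall fun z => ?_)
  have hz : z.1.1 ∈ (chartAt (E d) (𝒜.x i)).target := 𝒜.sub i z.2.1
  have e1 : dd (d := d) c (pr 𝒜 ⟨i, z⟩) (vc 𝒜 ⟨i, z⟩) = fderiv ℝ (c ∘ (chartAt (E d) (𝒜.x i)).symm) z.1.1 z.1.2 :=
    hL _ hz _
  have e2 : A (𝒜.x i) z.1.1 (inChart J (𝒜.x i) z.1.1 z.1.2) =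
      J (pr 𝒜 ⟨i, z⟩) (vc 𝒜 ⟨i, z⟩) := AB (𝒜.x i) hz _
  have e3 : dd (d := d) c (pr 𝒜 ⟨i, z⟩) (J (pr 𝒜 ⟨i, z⟩) (vc 𝒜 ⟨i, z⟩)) =
      fderiv ℝ (c ∘ (chartAt (E d) (𝒜.x i)).symm) z.1.1 (inChart J (𝒜.x i) z.1.1 z.1.2) := by
    rw [← e2]
    exact hL _ hz _
  change fderiv ℝ (c ∘ (chartAt (E d) (𝒜.x i)).symm) z.1.1 z.1.2 ^ 2 +
    fderiv ℝ (c ∘ (chartAt (E d) (𝒜.x i)).symm) z.1.1 (inChart J (𝒜.x i) z.1.1 z.1.2) ^ 2 =
    dd (d := d) c (pr 𝒜 ⟨i, z⟩) (vc 𝒜 ⟨i, z⟩) ^ 2 +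
      dd (d := d) c (pr 𝒜 ⟨i, z⟩) (J (pr 𝒜 ⟨i, z⟩) (vc 𝒜 ⟨i, z⟩)) ^ 2
  rw [e1, e3]

variable [CompactSpace X] [T2Space X]

/-- the local estimate -/
theorem lf_le (𝒜 : Atl d X) {c : X → ℝ} (hc : SmoothFun (d := d) c) {J : End d X}
    (hJ : IsAlmostComplex J) (z : X) {ε : ℝ} (hε : 0 < ε) :
    ∃ b : X → ℝ, SmoothFun (d := d) b ∧ ∃ U : Set X, IsOpen U ∧ z ∈ U ∧
      ∀ s, pr 𝒜 s ∈ U → lf 𝒜 c J s ≤ qf 𝒜 (dfdg c b) J s + ε := by
  obtain ⟨b, hb, hbz⟩ := exists_fun (d := d) z (-((dd (d := d) c z).comp (J z)))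
  have hcl : IsClosed {s : SS 𝒜 | qf 𝒜 (dfdg c b) J s + ε ≤ lf 𝒜 c J s} :=
    isClosed_le ((continuous_qf 𝒜 (smooth_dfdg hc hb) hJ).add continuous_const)
      (continuous_lf 𝒜 hc hJ)
  have hcl2 : IsClosed (pr 𝒜 '' {s : SS 𝒜 | qf 𝒜 (dfdg c b) J s + ε ≤ lf 𝒜 c J s}) :=
    (hcl.isCompact.image (continuous_pr 𝒜)).isClosed
  refine ⟨b, hb, _, hcl2.isOpen_compl, ?_, ?_⟩
  · rintro ⟨s, hs, hsz⟩
    have h1 : lf 𝒜 c J s = qf 𝒜 (dfdg c b) J s := by
      rw [qf_eq, dfdg_apply]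
      unfold lf
      rw [← hsz] at hbz
      have h2 : ∀ v : TangentSpace (𝓡 d) (pr 𝒜 s), dd b (pr 𝒜 s) v =
          -(dd (d := d) c (pr 𝒜 s) (J (pr 𝒜 s) v)) := by
        intro v
        exact hbz v
      rw [h2, h2, hJ.sq, map_neg]
      ring
    have hs' : qf 𝒜 (dfdg c b) J s + ε ≤ lf 𝒜 c J s := hs
    linarith
  · intro s hs
    by_contra h
    push Not at h
    exact hs ⟨s, h.le, rfl⟩

theorem null_borel [MeasurableSpace X] [BorelSpace X] (𝒜 : Atl d X) {J : End d X}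
    (hJ : IsAlmostComplex J) (μ : Measure (SS 𝒜)) [IsFiniteMeasure μ]
    (hex : ∀ (α : Form d X 1) (η : Form d X 2), Pair α η → ∫ s, qf 𝒜 η J s ∂μ = 0)
    {a b : X → ℝ} (ha : SmoothFun (d := d) a) (hb : SmoothFun (d := d) b) {B : Set X}
    (hB : MeasurableSet B) (hnull : volume ((fun x => (a x, b x)) '' B) = 0) :
    ∫ s in pr 𝒜 ⁻¹' B, qf 𝒜 (dfdg a b) J s ∂μ = 0 := by
  have _ : SecondCountableTopology X := ChartedSpace.secondCountable_of_sigmaCompact (E d) X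
  have _ : TopologicalSpace.MetrizableSpace X :=
    TopologicalSpace.metrizableSpace_of_t3_secondCountable X
  have hprm : Measurable (pr 𝒜) := (continuous_pr 𝒜).measurable
  have _ : IsFiniteMeasure (μ.map (pr 𝒜)) := Measure.isFiniteMeasure_map μ _
  set F : SS 𝒜 → ℝ := qf 𝒜 (dfdg a b) J with hF
  have hFc : Continuous F := continuous_qf 𝒜 (smooth_dfdg ha hb) hJ
  obtain ⟨C, hC⟩ : ∃ C : ℝ, ∀ s, ‖F s‖ ≤ C := by
    obtain ⟨C, hC⟩ := (isCompact_range hFc).isBounded.exists_norm_le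
    exact ⟨C, fun s => hC _ (mem_range_self s)⟩
  have key : ∀ δ : ℝ, 0 < δ → |∫ s in pr 𝒜 ⁻¹' B, F s ∂μ| ≤ |C| * δ := by
    intro δ hδ
    obtain ⟨K, hKB, hK, hKδ⟩ := hB.exists_isClosed_sdiff_lt
      (μ := μ.map (pr 𝒜)) (measure_ne_top _ _) (ENNReal.ofReal_pos.2 hδ).ne'
    have hmB : MeasurableSet (B \ K) := hB.diff hK.measurableSet
    have h1 := null_piece 𝒜 hJ μ hex ha hb hK.isCompact
      (measure_mono_null (image_mono hKB) hnull)
    have h2 : ∫ s in pr 𝒜 ⁻¹' B, F s ∂μ = ∫ s in pr 𝒜 ⁻¹' K, F s ∂μ +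
        ∫ s in pr 𝒜 ⁻¹' (B \ K), F s ∂μ := by
      rw [← setIntegral_union]
      · rw [← preimage_union, union_sdiff_cancel hKB]
      · exact (disjoint_sdiff_right.preimage _)
      · exact hprm hmB
      · exact (integrable_of_cont hFc).integrableOn
      · exact (integrable_of_cont hFc).integrableOn
    rw [h2, h1, zero_add]
    have h3 := norm_setIntegral_le_of_norm_le_const (μ := μ) (s := pr 𝒜 ⁻¹' (B \ K)) (f := F)
      (C := |C|) (measure_lt_top _ _) (fun s _ => (hC s).trans (le_abs_self C))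
    rw [Real.norm_eq_abs] at h3
    refine h3.trans (mul_le_mul_of_nonneg_left ?_ (abs_nonneg C))
    rw [Measure.map_apply hprm hmB] at hKδ
    rw [Measure.real]
    exact (ENNReal.toReal_le_of_le_ofReal hδ.le hKδ.le)
  have h0 : |∫ s in pr 𝒜 ⁻¹' B, F s ∂μ| ≤ 0 := by
    refine le_of_forall_pos_le_add fun ε hε => ?_
    have h1 := key (ε / (|C| + 1)) (by positivity)
    rw [zero_add]
    refine h1.trans ?_
    rw [mul_div_assoc', div_le_iff₀ (by positivity)]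
    nlinarith [abs_nonneg C]
  exact abs_eq_zero.1 (le_antisymm h0 (abs_nonneg _))

theorem level (𝒜 : Atl d X) {J : End d X} (hJ : IsAlmostComplex J) (μ : Measure (SS 𝒜))
    [IsFiniteMeasure μ]
    (hex : ∀ (α : Form d X 1) (η : Form d X 2), Pair α η → ∫ s, qf 𝒜 η J s ∂μ = 0)
    {c : X → ℝ} (hc : SmoothFun (d := d) c) {Z : Set ℝ} (hZ : volume Z = 0) :
    ∀ᵐ s ∂μ, c (pr 𝒜 s) ∈ Z → dd (d := d) c (pr 𝒜 s) (vc 𝒜 s) = 0 ∧
      dd (d := d) c (pr 𝒜 s) (J (pr 𝒜 s) (vc 𝒜 s)) = 0 := by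
  classical
  let _ : MeasurableSpace X := borel X
  have _ : BorelSpace X := ⟨rfl⟩
  have hprm : Measurable (pr 𝒜) := (continuous_pr 𝒜).measurable
  set Z' : Set ℝ := toMeasurable volume Z with hZ'
  have hZ'm : MeasurableSet Z' := measurableSet_toMeasurable _ _
  have hZ'0 : volume Z' = 0 := (measure_toMeasurable _).trans hZ
  set M : Set X := c ⁻¹' Z' with hM
  have hMm : MeasurableSet M := hc.continuous.measurable hZ'm
  have hlc : Continuous (lf 𝒜 c J) := continuous_lf 𝒜 hc hJ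
  have hli : Integrable (lf 𝒜 c J) μ := integrable_of_cont hlc
  have key : ∀ ε : ℝ, 0 < ε → ∫ s in pr 𝒜 ⁻¹' M, lf 𝒜 c J s ∂μ ≤ ε * μ.real univ := by
    intro ε hε
    have hind : ∃ V : Set X, IsOpen V ∧ (univ : Set X) ⊆ V ∧ ∀ B : Set X, B ⊆ V →
        MeasurableSet B → ∫ s in pr 𝒜 ⁻¹' (B ∩ M), lf 𝒜 c J s ∂μ ≤
          ε * μ.real (pr 𝒜 ⁻¹' (B ∩ M)) := by
      refine isCompact_univ.induction_on (p := fun S => ∃ V : Set X, IsOpen V ∧ S ⊆ V ∧
        ∀ B : Set X, B ⊆ V → MeasurableSet B → ∫ s in pr 𝒜 ⁻¹' (B ∩ M), lf 𝒜 c J s ∂μ ≤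
          ε * μ.real (pr 𝒜 ⁻¹' (B ∩ M))) ?_ ?_ ?_ ?_
      · refine ⟨∅, isOpen_empty, subset_rfl, fun B hB _ => ?_⟩
        rw [subset_empty_iff.1 hB]
        simp
      · rintro S T hST ⟨V, hV, hTV, h⟩
        exact ⟨V, hV, hST.trans hTV, h⟩
      · rintro S T ⟨V, hV, hSV, h⟩ ⟨V', hV', hTV', h'⟩
        refine ⟨V ∪ V', hV.union hV', union_subset_union hSV hTV', fun B hB hBm => ?_⟩
        have m1 : MeasurableSet (B ∩ V) := hBm.inter hV.measurableSet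
        have m2 : MeasurableSet (B \ V) := hBm.diff hV.measurableSet
        have h1 := h (B ∩ V) inter_subset_right m1
        have h2 := h' (B \ V) (fun x hx => (hB hx.1).resolve_left hx.2) m2
        have e1 : pr 𝒜 ⁻¹' (B ∩ M) = pr 𝒜 ⁻¹' (B ∩ V ∩ M) ∪ pr 𝒜 ⁻¹' (B \ V ∩ M) := by
          rw [← preimage_union, ← union_inter_distrib_right, inter_union_sdiff]
        have hdis : Disjoint (pr 𝒜 ⁻¹' (B ∩ V ∩ M)) (pr 𝒜 ⁻¹' (B \ V ∩ M)) := by
          refine Disjoint.preimage _ ?_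
          rw [Set.disjoint_left]
          rintro x ⟨⟨-, hx⟩, -⟩ ⟨⟨-, hx'⟩, -⟩
          exact hx' hx
        have mm2 : MeasurableSet (pr 𝒜 ⁻¹' (B \ V ∩ M)) := hprm (m2.inter hMm)
        rw [e1, setIntegral_union hdis mm2 hli.integrableOn hli.integrableOn,
          measureReal_union hdis mm2, mul_add]
        exact add_le_add h1 h2
      · intro z _
        obtain ⟨b, hb, U, hU, hzU, hUb⟩ := lf_le 𝒜 hc hJ z hε
        refine ⟨U, mem_nhdsWithin_of_mem_nhds (hU.mem_nhds hzU), U, hU, subset_rfl,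
          fun B hB hBm => ?_⟩
        have mBM : MeasurableSet (pr 𝒜 ⁻¹' (B ∩ M)) := hprm (hBm.inter hMm)
        have hq : Continuous (qf 𝒜 (dfdg c b) J) := continuous_qf 𝒜 (smooth_dfdg hc hb) hJ
        have h0 := null_borel 𝒜 hJ μ hex hc hb (hBm.inter hMm) (by
          have hsub : (fun x => (c x, b x)) '' (B ∩ M) ⊆ Z' ×ˢ univ := by
            rintro _ ⟨x, hx, rfl⟩
            exact ⟨hx.2, mem_univ _⟩
          refine measure_mono_null hsub ?_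
          rw [Measure.volume_eq_prod, Measure.prod_prod, hZ'0, zero_mul])
        calc ∫ s in pr 𝒜 ⁻¹' (B ∩ M), lf 𝒜 c J s ∂μ
            ≤ ∫ s in pr 𝒜 ⁻¹' (B ∩ M), (qf 𝒜 (dfdg c b) J s + ε) ∂μ := by
              refine setIntegral_mono_on hli.integrableOn
                (integrable_of_cont (hq.add continuous_const)).integrableOn mBM fun s hs => ?_
              exact hUb s (hB hs.1)
          _ = ε * μ.real (pr 𝒜 ⁻¹' (B ∩ M)) := by
              rw [integral_add (integrable_of_cont hq).integrableOn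
                (integrable_const ε).integrableOn, h0, zero_add, setIntegral_const, smul_eq_mul,
                mul_comm]
    obtain ⟨V, -, hV, h⟩ := hind
    have h1 := h univ hV MeasurableSet.univ
    rw [univ_inter] at h1
    exact h1.trans (mul_le_mul_of_nonneg_left (measureReal_mono (subset_univ _)) hε.le)
  have h0 : ∫ s in pr 𝒜 ⁻¹' M, lf 𝒜 c J s ∂μ = 0 := by
    refine le_antisymm ?_ (integral_nonneg fun s => lf_nonneg 𝒜 c J s)
    refine le_of_forall_pos_le_add fun ε hε => ?_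
    have hr : 0 ≤ μ.real univ := measureReal_nonneg
    have h1 := key (ε / (μ.real univ + 1)) (by positivity)
    rw [zero_add]
    refine h1.trans ?_
    rw [div_mul_eq_mul_div, div_le_iff₀ (by positivity)]
    nlinarith
  have hae := (setIntegral_eq_zero_iff_of_nonneg_ae (μ := μ) (s := pr 𝒜 ⁻¹' M)
    (f := lf 𝒜 c J) (Eventually.of_forall fun s => lf_nonneg 𝒜 c J s) hli.integrableOn).1 h0
  have hae2 := (ae_restrict_iff' (hprm hMm)).1 hae
  filter_upwards [hae2] with s hs hcs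
  have h1 : lf 𝒜 c J s = 0 := hs (subset_toMeasurable _ _ hcs)
  unfold lf at h1
  constructor
  · nlinarith [sq_nonneg (dd (d := d) c (pr 𝒜 s) (vc 𝒜 s)),
      sq_nonneg (dd (d := d) c (pr 𝒜 s) (J (pr 𝒜 s) (vc 𝒜 s)))]
  · nlinarith [sq_nonneg (dd (d := d) c (pr 𝒜 s) (vc 𝒜 s)),
      sq_nonneg (dd (d := d) c (pr 𝒜 s) (J (pr 𝒜 s) (vc 𝒜 s)))]

end Pool.Agent.N312.BU
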