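import Pool.Agent.N312.BU.AC

/-!
A finite measure on the unit tangent vectors which annihilates the exact forms does not charge
sets which are thin at all their points.
-/

set_option autoImplicit false

open Set Filter Topology MeasureTheory
open scoped Manifold ContDiff

noncomputable section

namespace Pool.Agent.N312.BU

open Pool.Agent.Y501.SY

variable {d : ℕ} {X : Type} [TopologicalSpace X] [ChartedSpace (E d) X]
  [IsManifold (𝓡 d) ∞ X] [CompactSpace X] [T2Space X]

omit [CompactSpace X] [T2Space X] in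
theorem qf_sum (𝒜 : Atl d X) (J : End d X) {ι : Type} (t : Finset ι) (η : ι → Form d X 2)
    (s : SS 𝒜) : qf 𝒜 (∑ i ∈ t, η i) J s = ∑ i ∈ t, qf 𝒜 (η i) J s := by
  rw [qf_eq, sum_apply2]
  exact Finset.sum_congr rfl fun j _ => (qf_eq 𝒜 _ _ _).symm

theorem null_compact (𝒜 : Atl d X) {J : End d X} (hJ : IsAlmostComplex J) (μ : Measure (SS 𝒜))
    [IsFiniteMeasure μ]
    (hex : ∀ (α : Form d X 1) (η : Form d X 2), Pair α η → ∫ s, qf 𝒜 η J s ∂μ = 0)
    {n : ℕ} {a b : Fin n → X → ℝ} (ha : ∀ j, SmoothFun (d := d) (a j))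
    (hb : ∀ j, SmoothFun (d := d) (b j)) {K : Set X} (hK : IsCompact K)
    (hB : ∀ x ∈ K, TamesAt (∑ j, dfdg (a j) (b j)) J x)
    (hnull : ∀ j, volume ((fun x => (a j x, b j x)) '' K) = 0) :
    μ (pr 𝒜 ⁻¹' K) = 0 := by
  have hKp : MeasurableSet (pr 𝒜 ⁻¹' K) :=
    (hK.isClosed.preimage (continuous_pr 𝒜)).measurableSet
  have hsm : IsSmooth (∑ j, dfdg (d := d) (a j) (b j)) :=
    IsSmooth.sum _ fun j _ => smooth_dfdg (ha j) (hb j)
  have hc := continuous_qf 𝒜 hsm hJ
  have h0 : ∫ s in pr 𝒜 ⁻¹' K, qf 𝒜 (∑ j, dfdg (d := d) (a j) (b j)) J s ∂μ = 0 := by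
    simp only [qf_sum]
    rw [integral_finsetSum]
    · exact Finset.sum_eq_zero fun j _ => null_piece 𝒜 hJ μ hex (ha j) (hb j) hK (hnull j)
    · intro j _
      exact (integrable_of_cont (continuous_qf 𝒜 (smooth_dfdg (ha j) (hb j)) hJ)).integrableOn
  by_contra hne
  have hpos : 0 < ∫ s in pr 𝒜 ⁻¹' K, qf 𝒜 (∑ j, dfdg (d := d) (a j) (b j)) J s ∂μ := by
    rw [setIntegral_pos_iff_support_of_nonneg_ae]
    · refine pos_iff_ne_zero.2 fun h => hne ?_
      refine measure_mono_null ?_ h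
      intro s hs
      refine ⟨?_, hs⟩
      rw [Function.mem_support, qf_eq]
      exact (hB _ hs _ (vc_ne 𝒜 s)).ne'
    · rw [EventuallyLE, ae_restrict_iff' hKp]
      refine Eventually.of_forall fun s hs => ?_
      rw [qf_eq]
      exact (hB _ hs _ (vc_ne 𝒜 s)).le
    · exact (integrable_of_cont hc).integrableOn
  rw [h0] at hpos
  exact lt_irrefl _ hpos

theorem ae_notMem (𝒜 : Atl d X) {J : End d X} (hJ : IsAlmostComplex J) (μ : Measure (SS 𝒜))
    [IsFiniteMeasure μ]
    (hex : ∀ (α : Form d X 1) (η : Form d X 2), Pair α η → ∫ s, qf 𝒜 η J s ∂μ = 0)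
    {N : Set X} (hN : ∀ z ∈ N, ThinAt2 0 0 J N z) : ∀ᵐ s ∂μ, pr 𝒜 s ∉ N := by
  classical
  let _ : MeasurableSpace X := borel X
  have _ : BorelSpace X := ⟨rfl⟩
  have _ : SecondCountableTopology X := ChartedSpace.secondCountable_of_sigmaCompact (E d) X
  have _ : TopologicalSpace.MetrizableSpace X :=
    TopologicalSpace.metrizableSpace_of_t3_secondCountable X
  have hprm : Measurable (pr 𝒜) := (continuous_pr 𝒜).measurable
  have _ : IsFiniteMeasure (μ.map (pr 𝒜)) := Measure.isFiniteMeasure_map μ _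
  have hloc : ∀ z : X, ∃ M : Set X, (z ∈ N → M ∈ 𝓝 z) ∧ ∃ M' : Set X, M ∩ N ⊆ M' ∧
      μ (pr 𝒜 ⁻¹' M') = 0 := by
    intro z
    by_cases hz : z ∈ N
    · obtain ⟨n, a, b, V, hV, ha, hb, hnull, hpos⟩ := hN z hz
      have hsm : IsSmooth (∑ j, dfdg (d := d) (a j) (b j)) :=
        IsSmooth.sum _ fun j _ => smooth_dfdg (ha j) (hb j)
      have hB : TamesAt (∑ j, dfdg (d := d) (a j) (b j)) J z := fun v hv => hpos v hv rfl rfl
      have hnear := TamesAt.nhds Pool.Agent.Y455.SY.t_PERT hJ hsm hB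
      obtain ⟨U, hU, hUo, hzU⟩ := mem_nhds_iff.1 (Filter.inter_mem hnear hV)
      refine ⟨U, fun _ => hUo.mem_nhds hzU, ?_⟩
      set T : Fin n → Set (ℝ × ℝ) := fun j =>
        toMeasurable volume ((fun x => (a j x, b j x)) '' (N ∩ V)) with hT
      set M' : Set X := U ∩ ⋂ j, (fun x => (a j x, b j x)) ⁻¹' T j with hM'
      have hM'm : MeasurableSet M' := by
        refine hUo.measurableSet.inter (MeasurableSet.iInter fun j => ?_)
        exact ((ha j).continuous.prodMk (hb j).continuous).measurable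
          (measurableSet_toMeasurable _ _)
      refine ⟨M', ?_, ?_⟩
      · rintro x ⟨hxU, hxN⟩
        refine ⟨hxU, mem_iInter.2 fun j => ?_⟩
        exact subset_toMeasurable _ _ ⟨x, ⟨hxN, (hU hxU).2⟩, rfl⟩
      · rw [← Measure.map_apply hprm hM'm]
        by_contra hne
        obtain ⟨K, hKM, hK, hKpos⟩ := hM'm.exists_lt_isClosed_of_ne_top (measure_ne_top _ _)
          (pos_iff_ne_zero.2 hne)
        rw [Measure.map_apply hprm hK.measurableSet] at hKpos
        have h1 := null_compact 𝒜 hJ μ hex ha hb hK.isCompact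
          (fun x hx => (hU (hKM hx).1).1) (fun j => by
            refine measure_mono_null ?_ ((measure_toMeasurable _).trans (hnull j))
            rintro _ ⟨x, hx, rfl⟩
            exact mem_iInter.1 (hKM hx).2 j)
        rw [h1] at hKpos
        exact lt_irrefl _ hKpos
    · exact ⟨∅, fun h => absurd h hz, ∅, by simp, by simp⟩
  choose M hM M' hMM' hM'0 using hloc
  obtain ⟨t, -, htc, ht⟩ := TopologicalSpace.countable_cover_nhdsWithin (s := N) (f := M)
    fun z hz => mem_nhdsWithin_of_mem_nhds (hM z hz)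
  rw [ae_iff]
  refine measure_mono_null (t := ⋃ z ∈ t, pr 𝒜 ⁻¹' M' z) ?_ ?_
  · intro s hs
    have hs' : pr 𝒜 s ∈ N := by
      by_contra h
      exact hs h
    obtain ⟨z, hz, hzs⟩ := mem_iUnion₂.1 (ht hs')
    exact mem_iUnion₂.2 ⟨z, hz, hMM' z ⟨hzs, hs'⟩⟩
  · exact (measure_biUnion_null_iff htc).2 fun z _ => hM'0 z

end Pool.Agent.N312.BU
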