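import Pool.Agent.Y501.SY.PubT

/-!
Tests for tangent vectors: the definitions used in the statement of the result.
-/

set_option autoImplicit false

open Set Filter Topology MeasureTheory
open scoped Manifold ContDiff

noncomputable section

namespace Pool.Agent.N312.BUP

open Pool.Agent.Y501.SYP

variable {V : Type} [NormedAddCommGroup V] [NormedSpace ℝ V]
  {X : Type} [TopologicalSpace X] [ChartedSpace V X]

/-- smooth exact two-forms -/
def ExactForm (η : Form V X 2) : Prop :=
  ∃ α : Form V X 1, IsSmooth α ∧ IsSmooth η ∧ IsD α η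

/-- `C` is a nonempty convex set of smooth closed two-forms, stable under adding exact forms. -/
structure IsTestClass (C : Set (Form V X 2)) : Prop where
  nonempty : C.Nonempty
  smooth : ∀ w ∈ C, IsSmooth w
  closed : ∀ w ∈ C, IsClosedForm w
  convex : Convex ℝ C
  exact : ∀ w ∈ C, ∀ η : Form V X 2, ExactForm η → w + η ∈ C

/-- the forms `s w + η` with `s ≥ 0`, `w` in `C` and `η` exact -/
def ConeOf (C : Set (Form V X 2)) : Set (Form V X 2) :=
  {θ | ∃ (s : ℝ) (w η : Form V X 2), 0 ≤ s ∧ w ∈ C ∧ ExactForm η ∧ θ = s • w + η}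

variable (V X) in
/-- sets of tangent vectors -/
abbrev VSet : Type := (x : X) → TangentSpace 𝓘(ℝ, V) x → Prop

/-- The forms `τ k` are uniformly bounded below on the pairs `(v, J v)`, `v` in `L`. -/
def LowerBounded (J : End V X) (L : VSet V X) (τ : ℕ → Form V X 2) : Prop :=
  ∃ γ : Form V X 2, IsSmooth γ ∧
    ∀ (k : ℕ) (x : X) (v : TangentSpace 𝓘(ℝ, V) x), L x v → qd γ J x v ≤ qd (τ k) J x v

/-- The tangent vector `v` at `x` is removed over `N`, relative to the set `L` of tangent vectors:
`x` belongs to `N`, and

* near `x`, the set `N` has two-dimensional Hausdorff measure zero; or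
* some smooth function `a` maps `N` near `x` to a null set of the line, and its differential is
  not zero on both `v` and `J v`; or
* for finitely many pairs `(a, b)` of smooth functions mapping `N` near `x` to null sets of the
  plane, the sum of the forms `da ∧ db` is nonnegative on `(w, J w)` for all `w` in `L` at `x`,
  and positive on `(v, J v)`. -/
def Removed [MeasurableSpace V] [BorelSpace V] (J : End V X) (N : Set X) (L : VSet V X) (x : X)
    (v : TangentSpace 𝓘(ℝ, V) x) : Prop :=
  x ∈ N ∧
    ((∃ U ∈ 𝓝 x, μH[2] (chartAt V x '' (N ∩ U ∩ (chartAt V x).source)) = 0) ∨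
    (∃ a : X → ℝ, SmoothFun (V := V) a ∧ (∃ U ∈ 𝓝 x, volume (a '' (N ∩ U)) = 0) ∧
      (dd a x v ≠ 0 ∨ dd a x (J x v) ≠ 0)) ∨
    ∃ (n : ℕ) (a b : Fin n → X → ℝ), (∀ i, NullPair (V := V) N x (a i) (b i)) ∧
      (∀ w : TangentSpace 𝓘(ℝ, V) x, L x w →
        0 ≤ ∑ i, (dd (a i) x w * dd (b i) x (J x w) - dd (a i) x (J x w) * dd (b i) x w)) ∧
      0 < ∑ i, (dd (a i) x v * dd (b i) x (J x v) - dd (a i) x (J x v) * dd (b i) x v))

/-- The smooth function `u` has differential zero on the vectors in `L`. -/
def Invariant (L : VSet V X) (u : X → ℝ) : Prop :=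
  SmoothFun (V := V) u ∧ ∀ (x : X) (v : TangentSpace 𝓘(ℝ, V) x), L x v → dd u x v = 0

/-- The leaf of `L` through `x`: the points at which there are vectors in `L`, and at which the
smooth functions with differential zero on `L` have the same values as at `x`. -/
def Leaf (L : VSet V X) (x : X) : Set X :=
  {y | (∃ w : TangentSpace 𝓘(ℝ, V) y, L y w) ∧ ∀ u : X → ℝ, Invariant L u → u y = u x}

variable (V X) in
/-- for every natural number `j`, countably many subsets `N j i` of `X`, and two sequences
`τ j`, `σ j` of two-forms -/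
structure Tests where
  N : ℕ → ℕ → Set X
  τ : ℕ → ℕ → Form V X 2
  σ : ℕ → ℕ → Form V X 2

/-- The vectors left after the first `j` steps: at the beginning, the vectors in `L₀`; at the
step `j` the following vectors `v` are discarded: those which are removed over one of the sets
`N j i`, relative to the vectors left; those for which `τ j k (v, J v)` tends to `+∞` as
`k → ∞`; and those for which the lower limit of `σ j k (v, J v)` is positive. -/
def Tests.Left [MeasurableSpace V] [BorelSpace V] (T : Tests V X) (J : End V X)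
    (L₀ : VSet V X) : ℕ → VSet V X
  | 0 => L₀
  | j + 1 => fun x v => T.Left J L₀ j x v ∧ (∀ i, ¬ Removed J (T.N j i) (T.Left J L₀ j) x v) ∧
      ¬ Tendsto (fun k => qd (T.τ j k) J x v) atTop atTop ∧
      ¬ ∃ ε : ℝ, 0 < ε ∧ ∀ᶠ k in atTop, ε ≤ qd (T.σ j k) J x v

/-- The tests, with forms in `K`, are admissible for the set `L₀` of vectors: on the vectors left
after the first `j` steps, the sequences `τ j` and `σ j` are bounded below and the lower limit of
`σ j k (v, J v)` is nonnegative. -/
structure Tests.Admissible [MeasurableSpace V] [BorelSpace V] (T : Tests V X) (J : End V X)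
    (K : Set (Form V X 2)) (L₀ : VSet V X) : Prop where
  mem_τ : ∀ j k, T.τ j k ∈ K
  mem_σ : ∀ j k, T.σ j k ∈ K
  low_τ : ∀ j, LowerBounded J (T.Left J L₀ j) (T.τ j)
  low_σ : ∀ j, LowerBounded J (T.Left J L₀ j) (T.σ j)
  nonneg : ∀ (j : ℕ) (x : X) (v : TangentSpace 𝓘(ℝ, V) x), T.Left J L₀ j x v →
    ∀ ε : ℝ, 0 < ε → ∀ᶠ k in atTop, -ε < qd (T.σ j k) J x v

/-- the vectors left after all steps -/
def Tests.Rest [MeasurableSpace V] [BorelSpace V] (T : Tests V X) (J : End V X)
    (L₀ : VSet V X) : VSet V X :=
  fun x v => ∀ j, T.Left J L₀ j x v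

/-- the vectors left after all steps, at the points of the leaf through `z` -/
def Tests.Piece [MeasurableSpace V] [BorelSpace V] (T : Tests V X) (J : End V X)
    (L₀ : VSet V X) (z : X) : VSet V X :=
  fun x v => T.Rest J L₀ x v ∧ x ∈ Leaf (T.Rest J L₀) z

/-- Void sets of tangent vectors: the empty set is void, and a set is void if there are
admissible tests with exact forms for which all pieces are void. -/
inductive Void [MeasurableSpace V] [BorelSpace V] (J : End V X) : VSet V X → Prop
  | empty (L : VSet V X) : (∀ (x : X) (v : TangentSpace 𝓘(ℝ, V) x), ¬ L x v) → Void J L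
  | step (L : VSet V X) (T : Tests V X) : T.Admissible J {η | ExactForm η} L →
      (∀ z, Void J (T.Piece J L z)) → Void J L

variable (V X) in
/-- the nonzero tangent vectors -/
def NonzeroVectors : VSet V X := fun _ v => v ≠ 0

end Pool.Agent.N312.BUP
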