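import Pool.Agent.N312.BU.Level
import Pool.Agent.N312.BU.Dis

/-!
A finite measure on the unit tangent vectors which annihilates the exact forms and is carried by a
set of vectors does not charge the vectors which are removed over a set.
-/

set_option autoImplicit false

open Set Filter Topology MeasureTheory ProbabilityTheory
open scoped Manifold ContDiff

noncomputable section

namespace Pool.Agent.N312.BU

open Pool.Agent.Y501.SY

variable {d : ℕ} {X : Type} [TopologicalSpace X] [ChartedSpace (E d) X]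

instance instPolishFib (𝒜 : Atl d X) (i : Fin 𝒜.n) :
    PolishSpace ↥(Metric.closedBall (chartAt (E d) (𝒜.x i) (𝒜.x i)) (𝒜.r i) ×ˢ
      Metric.sphere (0 : E d) 1) :=
  (Metric.isClosed_closedBall.prod Metric.isClosed_sphere).polishSpace

instance instPolishSS (𝒜 : Atl d X) : PolishSpace (SS 𝒜) := inferInstance

instance instStdSS (𝒜 : Atl d X) : StandardBorelSpace (SS 𝒜) := inferInstance

instance instSecSS (𝒜 : Atl d X) : SecondCountableTopology (SS 𝒜) := inferInstance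

/-- `v` is removed over `N` relative to `L` -/
def Rm (J : End d X) (N : Set X) (L : ∀ x : X, TangentSpace (𝓡 d) x → Prop) (x : X)
    (v : TangentSpace (𝓡 d) x) : Prop :=
  x ∈ N ∧ ∃ (n : ℕ) (a b : Fin n → X → ℝ) (V : Set X), V ∈ 𝓝 x ∧
    (∀ j, SmoothFun (d := d) (a j)) ∧ (∀ j, SmoothFun (d := d) (b j)) ∧
    (∀ j, volume ((fun y => (a j y, b j y)) '' (N ∩ V)) = 0) ∧
    (∀ w : TangentSpace (𝓡 d) x, L x w →
      0 ≤ (∑ j, dfdg (d := d) (a j) (b j)) x ![w, J x w]) ∧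
    0 < (∑ j, dfdg (d := d) (a j) (b j)) x ![v, J x v]

variable [IsManifold (𝓡 d) ∞ X] [CompactSpace X] [T2Space X]

theorem ae_not_rm (𝒜 : Atl d X) {J : End d X} (hJ : IsAlmostComplex J) (μ : Measure (SS 𝒜))
    [IsFiniteMeasure μ]
    (hex : ∀ (α : Form d X 1) (η : Form d X 2), Pair α η → ∫ s, qf 𝒜 η J s ∂μ = 0)
    (N : Set X) (L : ∀ x : X, TangentSpace (𝓡 d) x → Prop)
    (hL : ∀ᵐ s ∂μ, L (pr 𝒜 s) (vc 𝒜 s)) : ∀ᵐ s ∂μ, ¬ Rm J N L (pr 𝒜 s) (vc 𝒜 s) := by
  classical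
  rcases isEmpty_or_nonempty (SS 𝒜) with hS | hS
  · exact Eventually.of_forall fun s => (hS.false s).elim
  let _ : MeasurableSpace X := borel X
  have _ : BorelSpace X := ⟨rfl⟩
  have _ : SecondCountableTopology X := ChartedSpace.secondCountable_of_sigmaCompact (E d) X
  have hprm : Measurable (pr 𝒜) := (continuous_pr 𝒜).measurable
  have h1 : ∀ᵐ x ∂(μ.map (pr 𝒜)), ∀ U ∈ TopologicalSpace.countableBasis X, x ∈ N ∩ U →
      ∀ F ∈ {F : C(SS 𝒜, ℝ) | ∃ a b : X → ℝ, SmoothFun (d := d) a ∧ SmoothFun (d := d) b ∧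
        volume ((fun y => (a y, b y)) '' (N ∩ U)) = 0 ∧ ∀ s, F s = qf 𝒜 (dfdg a b) J s},
      ∫ s, F s ∂(condDistrib id (pr 𝒜) μ x) = 0 := by
    rw [ae_ball_iff (TopologicalSpace.countable_countableBasis X)]
    intro U hU
    refine dis_family hprm _ (N ∩ U) ?_
    rintro F ⟨a, b, ha, hb, hab, hF⟩
    have hUm : MeasurableSet U :=
      (TopologicalSpace.isOpen_of_mem_countableBasis hU).measurableSet
    refine ⟨(fun x => (a x, b x)) ⁻¹'
      (toMeasurable volume ((fun y => (a y, b y)) '' (N ∩ U))), ?_, ?_, ?_⟩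
    · exact (ha.continuous.prodMk hb.continuous).measurable (measurableSet_toMeasurable _ _)
    · intro x hx
      exact subset_toMeasurable _ _ ⟨x, hx, rfl⟩
    · intro B hB hBm
      have h2 := null_borel 𝒜 hJ μ hex ha hb hBm (by
        refine measure_mono_null ?_ ((measure_toMeasurable _).trans hab)
        rintro _ ⟨x, hx, rfl⟩
        exact hB hx)
      rw [← h2]
      exact integral_congr_ae (Eventually.of_forall fun s => hF s)
  have h2 := ae_of_ae_map hprm.aemeasurable h1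
  have h3 := ae_of_ae_map hprm.aemeasurable (dis_mem hprm hL)
  have h4 := ae_of_ae_map hprm.aemeasurable (dis_fib (μ := μ) hprm)
  have h5 := dis_supp μ hprm
  filter_upwards [h2, h3, h4, h5] with s k2 k3 k4 k5
  rintro ⟨hxN, n, a, b, V, hV, ha, hb, hnull, hnn, hpos⟩
  obtain ⟨U, hU, hxU, hUV⟩ :=
    (TopologicalSpace.isBasis_countableBasis X).mem_nhds_iff.1 hV
  have hc : ∀ j, Continuous (qf 𝒜 (dfdg (d := d) (a j) (b j)) J) := fun j =>
    continuous_qf 𝒜 (smooth_dfdg (ha j) (hb j)) hJ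
  have hGc : Continuous (qf 𝒜 (∑ j, dfdg (d := d) (a j) (b j)) J) :=
    continuous_qf 𝒜 (IsSmooth.sum _ fun j _ => smooth_dfdg (ha j) (hb j)) hJ
  have h0 : ∫ s', qf 𝒜 (∑ j, dfdg (d := d) (a j) (b j)) J s'
      ∂(condDistrib id (pr 𝒜) μ (pr 𝒜 s)) = 0 := by
    simp only [qf_sum]
    rw [integral_finsetSum]
    · refine Finset.sum_eq_zero fun j _ => ?_
      exact k2 U hU ⟨hxN, hxU⟩ ⟨qf 𝒜 (dfdg (d := d) (a j) (b j)) J, hc j⟩
        ⟨a j, b j, ha j, hb j, measure_mono_null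
          (image_mono (inter_subset_inter_right _ hUV)) (hnull j), fun s => rfl⟩
    · intro j _
      exact integrable_of_cont (hc j)
  have hnn' : ∀ᵐ s' ∂(condDistrib id (pr 𝒜) μ (pr 𝒜 s)),
      0 ≤ qf 𝒜 (∑ j, dfdg (d := d) (a j) (b j)) J s' := by
    filter_upwards [k3, k4] with s' g3 g4
    rw [qf_eq]
    have h6 : ∀ y : X, y = pr 𝒜 s → ∀ w : TangentSpace (𝓡 d) y, L y w →
        0 ≤ (∑ j, dfdg (d := d) (a j) (b j)) y ![w, J y w] := by
      rintro y rfl
      exact hnn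
    exact h6 _ g4 _ g3
  have h7 := (integral_eq_zero_iff_of_nonneg_ae hnn' (integrable_of_cont hGc)).1 h0
  have hopen : IsOpen {s' | 0 < qf 𝒜 (∑ j, dfdg (d := d) (a j) (b j)) J s'} :=
    isOpen_lt continuous_const hGc
  refine k5 _ hopen ?_ ?_
  · change 0 < qf 𝒜 (∑ j, dfdg (d := d) (a j) (b j)) J s
    rw [qf_eq]
    exact hpos
  · rw [measure_eq_zero_iff_ae_notMem]
    filter_upwards [h7] with s' hs' h
    have h8 : 0 < qf 𝒜 (∑ j, dfdg (d := d) (a j) (b j)) J s' := h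
    rw [hs'] at h8
    exact lt_irrefl _ h8

end Pool.Agent.N312.BU
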